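import Pool.Agent.TH589.CG.Packing
import Pool.Agent.W259.GS.Shatter

/-!
# Near-twins in graphs without an induced tree: clusters, sparse pairs, non-neighbours
-/

set_option autoImplicit false

open Finset

namespace Pool.Agent.K4H78.TW

open Pool.Agent.W259.GS (Sh)

open Classical in
/-- the vertices of `R` on which `x` and `y` have different adjacencies -/
noncomputable def df {V : Type} (G : SimpleGraph V) (R : Finset V) (x y : V) : Finset V :=
  R.filter fun z => ¬ (G.Adj x z ↔ G.Adj y z)

open Classical in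
/-- the neighbours of `x` in `R` -/
noncomputable def ni {V : Type} (G : SimpleGraph V) (R : Finset V) (x : V) : Finset V :=
  R.filter fun z => G.Adj x z

open Classical in
/-- the non-neighbours of `x` in `R` -/
noncomputable def nn {V : Type} (G : SimpleGraph V) (R : Finset V) (x : V) : Finset V :=
  R.filter fun z => ¬ G.Adj x z

/-- number of adjacent pairs -/
noncomputable def en {V : Type} (G : SimpleGraph V) (A B : Finset V) : ℕ :=
  ∑ x ∈ A, (ni G B x).card

theorem mem_df {V : Type} (G : SimpleGraph V) (R : Finset V) (x y z : V) :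
    z ∈ df G R x y ↔ z ∈ R ∧ ¬ (G.Adj x z ↔ G.Adj y z) := by
  simp only [df, mem_filter]

theorem mem_ni {V : Type} (G : SimpleGraph V) (R : Finset V) (x z : V) :
    z ∈ ni G R x ↔ z ∈ R ∧ G.Adj x z := by
  simp only [ni, mem_filter]

theorem mem_nn {V : Type} (G : SimpleGraph V) (R : Finset V) (x z : V) :
    z ∈ nn G R x ↔ z ∈ R ∧ ¬ G.Adj x z := by
  simp only [nn, mem_filter]

theorem ni_add_nn {V : Type} (G : SimpleGraph V) (R : Finset V) (x : V) :
    (ni G R x).card + (nn G R x).card = R.card := by
  classical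
  unfold ni nn
  exact Finset.card_filter_add_card_filter_not _

theorem ni_mono {V : Type} (G : SimpleGraph V) {R R' : Finset V} (h : R ⊆ R') (x : V) :
    (ni G R x).card ≤ (ni G R' x).card := by
  apply card_le_card
  intro z hz
  rw [mem_ni] at hz ⊢
  exact ⟨h hz.1, hz.2⟩

theorem df_self {V : Type} (G : SimpleGraph V) (R : Finset V) (x : V) : df G R x x = ∅ := by
  ext z
  rw [mem_df]
  simp

theorem df_comm {V : Type} (G : SimpleGraph V) (R : Finset V) (x y : V) :
    df G R x y = df G R y x := by
  ext z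
  rw [mem_df, mem_df]
  tauto

theorem df_triangle {V : Type} (G : SimpleGraph V) (R : Finset V) (x y z : V) :
    (df G R x z).card ≤ (df G R x y).card + (df G R y z).card := by
  classical
  refine (card_le_card ?_).trans (card_union_le _ _)
  intro v hv
  rw [mem_union, mem_df, mem_df]
  rw [mem_df] at hv
  tauto

theorem en_comm {V : Type} (G : SimpleGraph V) (A B : Finset V) : en G A B = en G B A := by
  classical
  unfold en ni
  simp only [card_filter]
  rw [sum_comm]
  apply sum_congr rfl
  intro x _
  apply sum_congr rfl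
  intro y _
  simp only [G.adj_comm]

theorem en_mono {V : Type} (G : SimpleGraph V) {A A' B B' : Finset V} (h : A ⊆ A')
    (h' : B ⊆ B') : en G A B ≤ en G A' B' := by
  unfold en
  refine (sum_le_sum fun x _ => ni_mono G h' x).trans ?_
  exact sum_le_sum_of_subset h

/-- vertices with many equal adjacencies to a given set -/
theorem cluster (N : ℕ) : ∃ C d : ℕ, 1 ≤ C ∧ ∀ (V : Type) [Fintype V] (G : SimpleGraph V)
    (R X : Finset V) (q : ℕ), 1 ≤ q → (∀ X : Finset V, Sh G X Set.univ → X.card < N) →
    ∃ X' ⊆ X, X.card ≤ C * q ^ d * X'.card ∧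
      ∀ x ∈ X', ∀ y ∈ X', q * (df G R x y).card ≤ R.card := by
  classical
  obtain ⟨C, d, hC⟩ := Pool.Agent.TH589.CG.packing_poly N
  refine ⟨(C + 1) * 2 ^ d, d, Nat.mul_pos (Nat.succ_pos _) (by positivity), ?_⟩
  intro V _ G R X q hq hsh
  have hkey : (C + 1) * 2 ^ d * q ^ d = (C + 1) * (2 * q) ^ d := by
    rw [mul_pow]; ring
  rw [hkey]
  have hpow : 1 ≤ (2 * q) ^ d := Nat.one_le_pow _ _ (by omega)
  rcases R.eq_empty_or_nonempty with hR | hR
  · refine ⟨X, Subset.refl _, ?_, ?_⟩
    · have : 1 ≤ (C + 1) * (2 * q) ^ d := Nat.mul_pos (Nat.succ_pos _) hpow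
      exact Nat.le_mul_of_pos_left _ this
    · intro x _ y _
      have : df G R x y = ∅ := by
        rw [hR]; unfold df; simp
      rw [this]; simp
  · -- a maximal separated set
    obtain ⟨P, hP⟩ : ∃ P : Finset V → Prop, P = fun U => ∀ u ∈ U, ∀ v ∈ U, u ≠ v →
        R.card ≤ (2 * q) * (df G R u v).card := ⟨_, rfl⟩
    obtain ⟨U, hU, hmax⟩ := Finset.exists_max_image (X.powerset.filter P) Finset.card
      ⟨∅, by
        rw [mem_filter]
        refine ⟨empty_mem_powerset _, ?_⟩
        rw [hP]
        intro u hu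
        simp at hu⟩
    rw [mem_filter, mem_powerset] at hU
    obtain ⟨hUX, hUP⟩ := hU
    have hUc : U.card ≤ (C + 1) * (2 * q) ^ d := by
      have h1 := hC V G R U (2 * q) (by omega) hR hsh (by
        intro u hu v hv huv
        rw [hP] at hUP
        have := hUP u hu v hv huv
        unfold df at this
        convert this using 3)
      refine h1.trans ?_
      exact Nat.mul_le_mul_right _ (Nat.le_succ _)
    have hcov : ∀ x ∈ X, ∃ u ∈ U, (2 * q) * (df G R x u).card ≤ R.card := by
      intro x hx
      by_cases hxU : x ∈ U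
      · exact ⟨x, hxU, by rw [df_self]; simp⟩
      by_contra hcon
      push Not at hcon
      have h1 : insert x U ∈ X.powerset.filter P := by
        rw [mem_filter, mem_powerset]
        refine ⟨insert_subset hx hUX, ?_⟩
        rw [hP] at hUP ⊢
        intro u hu v hv huv
        rw [mem_insert] at hu hv
        rcases hu with rfl | hu
        · rcases hv with rfl | hv
          · exact absurd rfl huv
          · exact (hcon v hv).le
        · rcases hv with rfl | hv
          · rw [df_comm]
            exact (hcon u hu).le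
          · exact hUP u hu v hv huv
      have h2 := hmax _ h1
      rw [card_insert_of_notMem hxU] at h2
      omega
    by_cases hX : X = ∅
    · refine ⟨∅, empty_subset _, ?_, ?_⟩
      · rw [hX]; simp
      · intro x hx; simp at hx
    have hXne : X.Nonempty := nonempty_iff_ne_empty.2 hX
    obtain ⟨F, hF⟩ : ∃ F : V → Finset V, F = fun u => X.filter fun x =>
        (2 * q) * (df G R x u).card ≤ R.card := ⟨_, rfl⟩
    have hsum : X.card ≤ ∑ u ∈ U, (F u).card := by
      refine (card_le_card ?_).trans card_biUnion_le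
      intro x hx
      obtain ⟨u, hu, h1⟩ := hcov x hx
      rw [mem_biUnion]
      refine ⟨u, hu, ?_⟩
      rw [hF]
      exact mem_filter.2 ⟨hx, h1⟩
    obtain ⟨u, hu, h1⟩ : ∃ u ∈ U, X.card ≤ (C + 1) * (2 * q) ^ d * (F u).card := by
      by_contra hcon
      push Not at hcon
      have hUne : U.Nonempty := by
        obtain ⟨x, hx⟩ := hXne
        obtain ⟨u, hu, -⟩ := hcov x hx
        exact ⟨u, hu⟩
      have h2 : ∑ u ∈ U, (C + 1) * (2 * q) ^ d * (F u).card < ∑ u ∈ U, X.card :=
        sum_lt_sum_of_nonempty hUne hcon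
      rw [← mul_sum, sum_const, smul_eq_mul] at h2
      have h3 := Nat.mul_le_mul_left ((C + 1) * (2 * q) ^ d) hsum
      have h4 := Nat.mul_le_mul_right X.card hUc
      omega
    refine ⟨F u, ?_, h1, ?_⟩
    · rw [hF]; exact filter_subset _ _
    · intro x hx y hy
      rw [hF] at hx hy
      have hx' := (mem_filter.1 hx).2
      have hy' := (mem_filter.1 hy).2
      have h2 := df_triangle G R x u y
      rw [df_comm G R u y] at h2
      have h3 := Nat.mul_le_mul_left (2 * q) h2
      have h4 : 2 * (q * (df G R x y).card) ≤ 2 * R.card := by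
        calc 2 * (q * (df G R x y).card) = 2 * q * (df G R x y).card := by ring
          _ ≤ 2 * q * ((df G R x u).card + (df G R y u).card) := h3
          _ = 2 * q * (df G R x u).card + 2 * q * (df G R y u).card := by ring
          _ ≤ 2 * R.card := by omega
      omega

/-- clusters for several sets at once -/
theorem clusters (N : ℕ) : ∃ C d : ℕ, 1 ≤ C ∧ ∀ (V : Type) [Fintype V] (G : SimpleGraph V)
    (q : ℕ), 1 ≤ q → (∀ X : Finset V, Sh G X Set.univ → X.card < N) →
    ∀ (P : ℕ → Finset V) (X : Finset V) (t : ℕ),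
    ∃ X' ⊆ X, X.card ≤ (C * q ^ d) ^ t * X'.card ∧
      ∀ l < t, ∀ x ∈ X', ∀ y ∈ X', q * (df G (P l) x y).card ≤ (P l).card := by
  obtain ⟨C, d, hC1, hC⟩ := cluster N
  refine ⟨C, d, hC1, ?_⟩
  intro V _ G q hq hsh P X t
  induction t with
  | zero =>
    refine ⟨X, Subset.refl _, by simp, ?_⟩
    intro l hl
    omega
  | succ t ih =>
    obtain ⟨X₁, h1, h2, h3⟩ := ih
    obtain ⟨X₂, h4, h5, h6⟩ := hC V G (P t) X₁ q hq hsh
    refine ⟨X₂, h4.trans h1, ?_, ?_⟩
    · calc X.card ≤ (C * q ^ d) ^ t * X₁.card := h2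
        _ ≤ (C * q ^ d) ^ t * (C * q ^ d * X₂.card) := Nat.mul_le_mul_left _ h5
        _ = (C * q ^ d) ^ (t + 1) * X₂.card := by ring
    · intro l hl x hx y hy
      rcases Nat.lt_succ_iff_lt_or_eq.1 hl with h | rfl
      · exact h3 l h x (h4 hx) y (h4 hy)
      · exact h6 x hx y hy

/-- many vertices with many non-neighbours -/
theorem half_nonadj {V : Type} (G : SimpleGraph V) (k : ℕ) (Q : Finset V) (v : V)
    (hv : ∀ x ∈ Q, G.Adj v x) (hk : G.CliqueFree (k + 1)) :
    ∃ A ⊆ Q, Q.card ≤ 2 * A.card ∧ ∀ x ∈ A, Q.card ≤ 2 * k * (nn G Q x).card := by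
  classical
  refine ⟨Q.filter fun x => Q.card ≤ 2 * k * (nn G Q x).card, filter_subset _ _, ?_,
    fun x hx => (mem_filter.1 hx).2⟩
  by_contra hcon
  push Not at hcon
  obtain ⟨H, hH⟩ : ∃ H : Finset V, H = Q.filter fun x => ¬ Q.card ≤ 2 * k * (nn G Q x).card :=
    ⟨_, rfl⟩
  have hHc : Q.card < 2 * H.card := by
    have h1 : (Q.filter fun x => Q.card ≤ 2 * k * (nn G Q x).card).card + H.card = Q.card := by
      rw [hH]
      exact Finset.card_filter_add_card_filter_not _
    omega
  have hcl : ∀ i ≤ k, ∃ S ⊆ H, S.card = i ∧ G.IsClique (S : Set V) := by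
    intro i
    induction i with
    | zero =>
      intro _
      exact ⟨∅, empty_subset _, rfl, by simp⟩
    | succ i ih =>
      intro hi
      obtain ⟨S, hSH, hSc, hS⟩ := ih (by omega)
      have hmiss : 2 * k * (S.biUnion fun x => nn G Q x).card ≤ i * Q.card := by
        have h1 : (S.biUnion fun x => nn G Q x).card ≤ ∑ x ∈ S, (nn G Q x).card :=
          card_biUnion_le
        have h2 : ∑ x ∈ S, 2 * k * (nn G Q x).card ≤ ∑ x ∈ S, Q.card := by
          apply sum_le_sum
          intro x hx
          have h3 := hSH hx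
          rw [hH] at h3
          have h4 := (mem_filter.1 h3).2
          omega
        rw [← mul_sum, sum_const, smul_eq_mul, hSc] at h2
        exact (Nat.mul_le_mul_left _ h1).trans h2
      have h5 : 2 * (S.biUnion fun x => nn G Q x).card ≤ Q.card := by
        have h6 : k * (2 * (S.biUnion fun x => nn G Q x).card) ≤ k * Q.card := by
          calc k * (2 * (S.biUnion fun x => nn G Q x).card)
              = 2 * k * (S.biUnion fun x => nn G Q x).card := by ring
            _ ≤ i * Q.card := hmiss
            _ ≤ k * Q.card := Nat.mul_le_mul_right _ (by omega)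
        exact Nat.le_of_mul_le_mul_left h6 (by omega)
      obtain ⟨z, hz, hz'⟩ : ∃ z ∈ H, z ∉ S.biUnion fun x => nn G Q x := by
        by_contra hno
        push Not at hno
        have h7 : H ⊆ S.biUnion fun x => nn G Q x := hno
        have := card_le_card h7
        omega
      have hzQ : z ∈ Q := by
        rw [hH] at hz
        exact (mem_filter.1 hz).1
      have hadj : ∀ x ∈ S, G.Adj x z := by
        intro x hx
        by_contra hxz
        apply hz'
        rw [mem_biUnion]
        exact ⟨x, hx, (mem_nn G Q x z).2 ⟨hzQ, hxz⟩⟩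
      have hzS : z ∉ S := fun h => (hadj z h).ne rfl
      refine ⟨insert z S, insert_subset hz hSH, by rw [card_insert_of_notMem hzS, hSc], ?_⟩
      rw [coe_insert, SimpleGraph.isClique_insert]
      exact ⟨hS, fun x hx _ => (hadj x hx).symm⟩
  obtain ⟨S, hSH, hSc, hS⟩ := hcl k le_rfl
  have hSQ : ∀ x ∈ S, x ∈ Q := by
    intro x hx
    have h1 := hSH hx
    rw [hH] at h1
    exact (mem_filter.1 h1).1
  have hvS : v ∉ S := fun h => (hv v (hSQ v h)).ne rfl
  apply hk (insert v S)
  rw [SimpleGraph.isNClique_iff]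
  refine ⟨?_, by rw [card_insert_of_notMem hvS, hSc]⟩
  rw [coe_insert, SimpleGraph.isClique_insert]
  exact ⟨hS, fun x hx _ => hv x (hSQ x hx)⟩

/-- the vertices with at least half of `P` as neighbours are few -/
theorem bad_card {V : Type} [Fintype V] (G : SimpleGraph V) (P B : Finset V)
    (hP : 0 < P.card) (M : ℝ) (hB : ∀ y ∈ B, P.card ≤ 2 * (ni G P y).card)
    (hdeg : ∀ x ∈ P, ((ni G univ x).card : ℝ) ≤ M) : (B.card : ℝ) ≤ 2 * M := by
  have h1 : B.card * P.card ≤ 2 * en G B P := by
    unfold en
    rw [mul_sum, ← smul_eq_mul, ← sum_const]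
    exact sum_le_sum hB
  have h2 : (en G P B : ℝ) ≤ P.card * M := by
    unfold en
    push_cast
    rw [← nsmul_eq_mul, ← sum_const]
    apply sum_le_sum
    intro x hx
    refine le_trans ?_ (hdeg x hx)
    exact_mod_cast ni_mono G (subset_univ B) x
  rw [en_comm] at h1
  have h3 : (B.card : ℝ) * P.card ≤ 2 * (P.card * M) := by
    have : ((B.card * P.card : ℕ) : ℝ) ≤ ((2 * en G P B : ℕ) : ℝ) := by exact_mod_cast h1
    push_cast at this
    linarith
  have h4 : (0 : ℝ) < P.card := by exact_mod_cast hP
  nlinarith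

end Pool.Agent.K4H78.TW
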