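import Pool.Agent.K4H78.TW.Walk

/-!
# Induced trees in graphs with sparse pairs of neighbourhoods
-/

set_option autoImplicit false
set_option linter.unusedSectionVars false

open Finset

namespace Pool.Agent.K4H78.TW.Walk

variable {V : Type} [Fintype V] [DecidableEq V] {c : V → V → ℝ}

/-- The random map of the tree is an induced embedding with positive probability, if the ends of
random walks of length at least two are rarely equal or adjacent. -/
theorem core' (h : Wt c) (hV : Nonempty V) (par : ℕ → ℕ) (hpar : ∀ i, 1 ≤ i → par i < i) (n : ℕ)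
    (A : V → V → Prop) (hA : ∀ x y, c x y ≠ 0 → A x y) (ζ : ℝ) (hζ0 : 0 ≤ ζ)
    (hζ : ζ * (n + 1) ^ 2 ≤ 1)
    (g₀ : V → V → ℝ) (hg₀ : ∀ x y, 0 ≤ g₀ x y) (hg₁ : ∀ x y, (x = y ∨ A x y) → g₀ x y = 1)
    (hg : ∀ r, 2 ≤ r → r ≤ 2 * n →
      ∑ a, ∑ b, D c a * Pr c r a b * g₀ a b ≤ ζ * ∑ a, D c a) :
    ∃ w : ℕ → V, (∀ i j, i < j → j ≤ n → TA par i j → A (w i) (w j)) ∧
      ∀ i j, i < j → j ≤ n → ¬ TA par i j → w i ≠ w j ∧ ¬ A (w i) (w j) := by
  classical
  obtain ⟨S, hS⟩ : ∃ S : Finset (ℕ × ℕ), S = ((range (n + 1)) ×ˢ (range (n + 1))).filter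
      (fun p => p.1 < p.2) := ⟨_, rfl⟩
  have hSc : (S.card : ℝ) < (n + 1) ^ 2 := by
    have h1 : S.card < ((range (n + 1)) ×ˢ (range (n + 1))).card := by
      apply card_lt_card
      rw [hS]
      refine ⟨filter_subset _ _, ?_⟩
      intro hsub
      have h2 : ((0, 0) : ℕ × ℕ) ∈ (range (n + 1)) ×ˢ (range (n + 1)) := by
        rw [mem_product]
        simp
      have h3 := (mem_filter.1 (hsub h2)).2
      simp at h3
    rw [card_product, card_range] at h1
    have h2 : (S.card : ℝ) < (((n + 1) * (n + 1) : ℕ) : ℝ) := by exact_mod_cast h1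
    refine h2.trans_le (le_of_eq ?_)
    push_cast
    ring
  obtain ⟨bad, hbad⟩ : ∃ bad : ℕ × ℕ → V → V → ℝ, bad = fun p a b =>
      if TA par p.1 p.2 then (if A a b then 0 else 1) else g₀ a b := ⟨_, rfl⟩
  have hD : 0 < ∑ a, D c a := by
    apply sum_pos (fun a _ => h.pos a)
    exact univ_nonempty
  have hterm : ∀ p ∈ S, Ex c par n (fun w => bad p (w p.1) (w p.2)) ≤ ζ * ∑ a, D c a := by
    intro p hp
    rw [hS, mem_filter, mem_product, mem_range, mem_range] at hp
    obtain ⟨⟨hp1, hp2⟩, hp3⟩ := hp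
    obtain ⟨r, h1, -, h2, h3, h4⟩ := joint h par hpar n p.1 (by omega) p.2 (by omega)
    rw [h4]
    by_cases hTA : TA par p.1 p.2
    · rw [h2 (by omega) hTA]
      have h5 : ∑ a, ∑ b, D c a * Pr c 1 a b * bad p a b = 0 := by
        apply sum_eq_zero
        intro a _
        apply sum_eq_zero
        intro b _
        have h6 : Pr c 1 a b = P c a b := by
          unfold Pr
          unfold Pr
          simp
        rw [h6, D_P h, hbad]
        simp only
        rw [if_pos hTA]
        by_cases h7 : A a b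
        · rw [if_pos h7, mul_zero]
        · rw [if_neg h7]
          have : c a b = 0 := by
            by_contra h8
            exact h7 (hA a b h8)
          rw [this, zero_mul]
      rw [h5]
      positivity
    · have h5 : ∀ a b, bad p a b = g₀ a b := by
        intro a b
        rw [hbad]
        simp only
        rw [if_neg hTA]
      simp only [h5]
      exact hg r (h3 (by omega) hTA) (by omega)
  by_contra hcon
  have hone : ∀ w : ℕ → V, (1 : ℝ) ≤ ∑ p ∈ S, bad p (w p.1) (w p.2) := by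
    intro w
    have hnn : ∀ p ∈ S, 0 ≤ bad p (w p.1) (w p.2) := by
      intro p _
      rw [hbad]
      simp only
      split_ifs
      · exact le_rfl
      · exact zero_le_one
      · exact hg₀ _ _
    by_contra hlt
    push Not at hlt
    apply hcon
    have hmem : ∀ i j, i < j → j ≤ n → ((i, j) : ℕ × ℕ) ∈ S := by
      intro i j hij hj
      rw [hS, mem_filter, mem_product, mem_range, mem_range]
      exact ⟨⟨by omega, by omega⟩, hij⟩
    refine ⟨w, ?_, ?_⟩
    · intro i j hij hj hTA
      by_contra hAij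
      have h1 := single_le_sum hnn (hmem i j hij hj)
      have h2 : bad (i, j) (w i) (w j) = 1 := by
        rw [hbad]
        simp only
        rw [if_pos hTA, if_neg hAij]
      rw [h2] at h1
      linarith
    · intro i j hij hj hTA
      have h1 := single_le_sum hnn (hmem i j hij hj)
      have h2 : bad (i, j) (w i) (w j) = g₀ (w i) (w j) := by
        rw [hbad]
        simp only
        rw [if_neg hTA]
      rw [h2] at h1
      constructor
      · intro heq
        have h3 := hg₁ (w i) (w j) (Or.inl heq)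
        rw [h3] at h1
        linarith
      · intro hAij
        have h3 := hg₁ (w i) (w j) (Or.inr hAij)
        rw [h3] at h1
        linarith
  have h1 : Ex c par n (fun _ => 1) ≤ Ex c par n (fun w => ∑ p ∈ S, bad p (w p.1) (w p.2)) :=
    Ex_mono h par n _ _ hone
  rw [Ex_one h, Ex_sum] at h1
  have h2 : ∑ p ∈ S, Ex c par n (fun w => bad p (w p.1) (w p.2)) ≤
      S.card * (ζ * ∑ a, D c a) := by
    rw [← nsmul_eq_mul, ← sum_const]
    exact sum_le_sum hterm
  have h3 : (S.card : ℝ) * (ζ * ∑ a, D c a) < ∑ a, D c a := by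
    rcases hζ0.eq_or_lt with h0 | h0
    · rw [← h0]
      simpa using hD
    · have h4 : (S.card : ℝ) * ζ < 1 := by
        have h5 : (S.card : ℝ) * ζ < (n + 1) ^ 2 * ζ := mul_lt_mul_of_pos_right hSc h0
        linarith
      have h5 : (S.card : ℝ) * ζ * ∑ a, D c a < 1 * ∑ a, D c a :=
        mul_lt_mul_of_pos_right h4 hD
      linarith
  linarith

/-- The random map of the tree is an induced embedding with positive probability, if between any two
neighbourhoods there are few pairs of vertices which are equal or adjacent. -/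
theorem core (h : Wt c) (hV : Nonempty V) (par : ℕ → ℕ) (hpar : ∀ i, 1 ≤ i → par i < i) (n : ℕ)
    (A : V → V → Prop) (hA : ∀ x y, c x y ≠ 0 → A x y) (ζ : ℝ) (hζ0 : 0 ≤ ζ)
    (hζ : ζ * (n + 1) ^ 2 ≤ 1)
    (g₀ : V → V → ℝ) (hg₀ : ∀ x y, 0 ≤ g₀ x y) (hg₁ : ∀ x y, (x = y ∨ A x y) → g₀ x y = 1)
    (hg : ∀ x y, ∑ a, ∑ b, c x a * c y b * g₀ a b ≤ ζ * (D c x * D c y)) :
    ∃ w : ℕ → V, (∀ i j, i < j → j ≤ n → TA par i j → A (w i) (w j)) ∧
      ∀ i j, i < j → j ≤ n → ¬ TA par i j → w i ≠ w j ∧ ¬ A (w i) (w j) := by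
  apply core' h hV par hpar n A hA ζ hζ0 hζ g₀ hg₀ hg₁
  intro r hr _
  obtain ⟨r', rfl⟩ : ∃ r', r = r' + 2 := ⟨r - 2, by omega⟩
  exact ends_le h g₀ ζ hg r'

end Pool.Agent.K4H78.TW.Walk
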