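import Pool.Agent.K4H78.TW.Step2
import Pool.Agent.H367R3.GSForest
import Pool.Agent.TH346.LG.Local

/-!
# Near-twins in graphs without an induced forest
-/

set_option autoImplicit false

open Finset

namespace Pool.Agent.K4H78.TW

open Pool.Agent.W259.GS (Sh)

/-- the vertices of a tree can be numbered so that each vertex but the first has exactly one
neighbour with a smaller number -/
theorem tree_order : ∀ (n : ℕ) (V : Type) [Fintype V] (T : SimpleGraph V), T.IsTree →
    Fintype.card V = n + 1 → ∃ (par : ℕ → ℕ) (f : V → ℕ), Function.Injective f ∧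
      (∀ v, f v < n + 1) ∧ (∀ i, 1 ≤ i → par i < i) ∧
      ∀ v w, f v < f w → (T.Adj v w ↔ par (f w) = f v) := by
  intro n
  induction n with
  | zero =>
    intro V _ T hT hV
    have hsub : Subsingleton V := by
      rw [← Fintype.card_le_one_iff_subsingleton]
      omega
    refine ⟨fun _ => 0, fun _ => 0, fun x y _ => Subsingleton.elim x y, fun _ => Nat.one_pos,
      fun i hi => hi, ?_⟩
    intro v w h
    exact absurd h (lt_irrefl _)
  | succ n ih =>
    intro V _ T hT hV
    classical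
    have hnt : Nontrivial V := by
      rw [← Fintype.one_lt_card_iff_nontrivial]
      omega
    obtain ⟨l, hl⟩ := hT.exists_vert_degree_one_of_nontrivial
    have hconn := hT.connected.induce_compl_singleton_of_degree_eq_one hl
    have hT' : (T.induce ({l}ᶜ : Set V)).IsTree := ⟨hconn, hT.isAcyclic.induce _⟩
    obtain ⟨u, hu, huu⟩ := SimpleGraph.degree_eq_one_iff_existsUnique_adj.1 hl
    have hu' : u ∈ ({l}ᶜ : Set V) := fun h => hu.ne h.symm
    have hcard : Fintype.card ({l}ᶜ : Set V) = n + 1 := by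
      rw [Fintype.card_compl_set, hV]
      simp
    obtain ⟨par, f, hf, hfn, hpar, hadj⟩ := ih _ (T.induce ({l}ᶜ : Set V)) hT' hcard
    have hmem : ∀ v, v ≠ l → v ∈ ({l}ᶜ : Set V) := fun v h => h
    obtain ⟨g, hg⟩ : ∃ g : V → ℕ, g = fun v => if h : v = l then n + 1
      else f ⟨v, hmem v h⟩ := ⟨_, rfl⟩
    have hgl : g l = n + 1 := by
      rw [hg]
      simp
    have hgv : ∀ v (h : v ≠ l), g v = f ⟨v, hmem v h⟩ := by
      intro v h
      rw [hg]
      simp only
      rw [dif_neg h]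
    have hglt : ∀ v, v ≠ l → g v < n + 1 := by
      intro v h
      rw [hgv v h]
      exact hfn _
    refine ⟨fun i => if i = n + 1 then f ⟨u, hu'⟩ else par i, g, ?_, ?_, ?_, ?_⟩
    · intro x y hxy
      by_cases hx : x = l
      · by_cases hy : y = l
        · rw [hx, hy]
        · have := hglt y hy
          rw [hx, hgl] at hxy
          omega
      · by_cases hy : y = l
        · have := hglt x hx
          rw [hy, hgl] at hxy
          omega
        · rw [hgv x hx, hgv y hy] at hxy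
          exact congrArg Subtype.val (hf hxy)
    · intro v
      by_cases hv : v = l
      · rw [hv, hgl]
        omega
      · have := hglt v hv
        omega
    · intro i hi
      simp only
      by_cases h : i = n + 1
      · rw [if_pos h, h]
        exact hfn _
      · rw [if_neg h]
        exact hpar i hi
    · intro v w hvw
      simp only
      by_cases hw : w = l
      · subst hw
        have hv : v ≠ w := by
          rintro rfl
          omega
        rw [hgl, if_pos rfl, hgv v hv, hf.eq_iff]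
        constructor
        · intro h
          have h1 := huu v h.symm
          subst h1
          rfl
        · intro h
          have h1 : u = v := congrArg Subtype.val h
          rw [← h1]
          exact hu.symm
      · have hv : v ≠ l := by
          rintro rfl
          have := hglt w hw
          rw [hgl] at hvw
          omega
        have h1 := hglt w hw
        rw [if_neg (by omega), hgv w hw, hgv v hv]
        rw [hgv w hw, hgv v hv] at hvw
        have h2 := hadj ⟨v, hmem v hv⟩ ⟨w, hmem w hw⟩ hvw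
        rw [← h2]
        rfl

/-- a partial copy with `m + 1` vertices -/
theorem build (N k n : ℕ) (hk : 1 ≤ k) (K ε : ℝ) (hK : 1 ≤ K) (hε : 0 < ε) (m : ℕ) :
    m ≤ n → ∃ α > 0, ∃ δ > 0, ∃ D > 0, ∀ (V : Type) [Fintype V] (G : SimpleGraph V),
    G.CliqueFree (k + 1) → (∀ X : Finset V, Sh G X Set.univ → X.card < N) →
    ∀ (d : ℝ), D ≤ d → ∀ (par : ℕ → ℕ) (w₀ : V), (∀ i, 1 ≤ i → par i < i) →
    (∀ v, (∃ p : G.Walk w₀ v, p.length ≤ n) →
      d ≤ ((ni G univ v).card : ℝ) ∧ ((ni G univ v).card : ℝ) ≤ K * d) →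
    (∀ v, (∃ p : G.Walk w₀ v, p.length ≤ n) → ((tw G (ε * d) v).card : ℝ) < δ * d) →
    ∃ (w : ℕ → V) (Q : ℕ → Finset V), w 0 = w₀ ∧
      St G par (m + 1) w Q ((64 * k ^ 2) ^ m * (1 / (32 * (n + 1) * (64 * k ^ 2) ^ n)))
        (α * d) := by
  classical
  have hk0 : (0 : ℝ) < k := by exact_mod_cast hk
  have hk1 : (1 : ℝ) ≤ k := by exact_mod_cast hk
  induction m with
  | zero =>
    intro _
    refine ⟨1, one_pos, 1, one_pos, 1, one_pos, ?_⟩
    intro V _ G hfree hsh d hd par w₀ hpar hdeg htw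
    refine ⟨fun _ => w₀, fun _ => ni G univ w₀, rfl, ?_⟩
    constructor
    · intro i hi j hj _
      omega
    · intro j hj i hi
      omega
    · intro j _ x hx
      exact ((mem_ni G _ _ _).1 hx).2
    · intro j hj l hl hlj
      omega
    · intro j _
      rw [one_mul]
      exact (hdeg w₀ ⟨SimpleGraph.Walk.nil, by simp⟩).1
    · intro j hj l hl hlj
      omega
    · intro j _
      exact ⟨SimpleGraph.Walk.nil, by simp⟩
  | succ m ih =>
    intro hm
    obtain ⟨α, hα, δ, hδ, D, hD, hall⟩ := ih (by omega)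
    obtain ⟨ζ, hζ⟩ : ∃ ζ : ℝ, ζ = (64 * (k : ℝ) ^ 2) ^ m *
      (1 / (32 * (n + 1) * (64 * k ^ 2) ^ n)) := ⟨_, rfl⟩
    have hζ0 : 0 < ζ := by rw [hζ]; positivity
    have hζ1 : ζ * (32 * ((m + 1 : ℕ) : ℝ)) ≤ 1 := by
      have h1 : (64 * (k : ℝ) ^ 2) ^ m ≤ (64 * (k : ℝ) ^ 2) ^ n := by
        apply pow_le_pow_right₀ _ (by omega)
        nlinarith
      have h2 : ((m + 1 : ℕ) : ℝ) ≤ n + 1 := by
        have : (m + 1 : ℕ) ≤ n + 1 := by omega
        exact_mod_cast this
      have h3 : 0 < (64 * (k : ℝ) ^ 2) ^ n := by positivity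
      rw [hζ, mul_one_div, div_mul_eq_mul_div, div_le_one (by positivity)]
      calc (64 * (k : ℝ) ^ 2) ^ m * (32 * ((m + 1 : ℕ) : ℝ))
          ≤ (64 * (k : ℝ) ^ 2) ^ n * (32 * (n + 1)) := by gcongr
        _ = 32 * (n + 1) * (64 * (k : ℝ) ^ 2) ^ n := by ring
    obtain ⟨α', hα', δ', hδ', D', hD', hstep⟩ :=
      step N k (m + 1) hk (by omega) K ε α ζ hK hε hα hζ0 hζ1
    refine ⟨α', hα', min δ δ', lt_min hδ hδ', max D D', lt_max_of_lt_left hD, ?_⟩
    intro V _ G hfree hsh d hd par w₀ hpar hdeg htw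
    have hd0 : 0 < d := lt_of_lt_of_le hD ((le_max_left _ _).trans hd)
    obtain ⟨w, Q, hw0, hSt⟩ := hall V G hfree hsh d ((le_max_left _ _).trans hd) par w₀ hpar hdeg
      (fun v hv => (htw v hv).trans_le
        (mul_le_mul_of_nonneg_right (min_le_left _ _) hd0.le))
    rw [← hζ] at hSt
    obtain ⟨w', Q', hw', hSt'⟩ := hstep V G hfree hsh d ((le_max_right _ _).trans hd) par w Q
      (hpar _ (by omega)) hSt
      (fun v hv => by
        rw [hw0] at hv
        obtain ⟨p, hp⟩ := hv
        exact hdeg v ⟨p, by omega⟩)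
      (fun v hv => by
        rw [hw0] at hv
        obtain ⟨p, hp⟩ := hv
        exact (htw v ⟨p, by omega⟩).trans_le
          (mul_le_mul_of_nonneg_right (min_le_right _ _) hd0.le))
    refine ⟨w', Q', hw'.trans hw0, ?_⟩
    have h1 : (64 * (k : ℝ) ^ 2) ^ (m + 1) * (1 / (32 * (n + 1) * (64 * k ^ 2) ^ n)) =
        64 * k ^ 2 * ζ := by
      rw [hζ]; ring
    rw [h1]
    exact hSt'

/-- near-twins in near-regular graphs without an induced tree -/
theorem twins_tree (n k : ℕ) (hk : 1 ≤ k) (V₀ : Type) [Fintype V₀] (T : SimpleGraph V₀)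
    (hT : T.IsTree) (hV₀ : Fintype.card V₀ = n + 1) (K ε : ℝ) (hK : 1 ≤ K) (hε : 0 < ε) :
    ∃ δ > 0, ∀ (V : Type) [Fintype V] (G : SimpleGraph V), G.CliqueFree (k + 1) →
    IsEmpty (T ↪g G) → ∀ (d : ℝ) (w₀ : V), (∀ v, (∃ p : G.Walk w₀ v, p.length ≤ n) →
      d ≤ ((ni G univ v).card : ℝ) ∧ ((ni G univ v).card : ℝ) ≤ K * d) →
    ∃ v, (∃ p : G.Walk w₀ v, p.length ≤ n) ∧ δ * d ≤ ((tw G (ε * d) v).card : ℝ) := by
  classical
  have hcol : T.Colorable 2 := hT.isAcyclic.colorable_two
  obtain ⟨N, hN⟩ := Pool.Agent.W259.GS.noShatter T hcol (k + 1)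
  obtain ⟨par, f, hf, hfn, hpar, hadj⟩ := tree_order n V₀ T hT hV₀
  obtain ⟨α, hα, δ, hδ, D, hD, hall⟩ := build N k n hk K ε hK hε n le_rfl
  refine ⟨min δ (1 / D), lt_min hδ (by positivity), ?_⟩
  intro V _ G hfree hTG d w₀ hdeg
  by_cases hd0 : 0 < d
  swap
  · push Not at hd0
    refine ⟨w₀, ⟨SimpleGraph.Walk.nil, by simp⟩, ?_⟩
    have h1 : 0 < min δ (1 / D) := lt_min hδ (by positivity)
    have h2 : min δ (1 / D) * d ≤ 0 := mul_nonpos_of_nonneg_of_nonpos h1.le hd0
    exact h2.trans (Nat.cast_nonneg _)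
  by_cases hd : D ≤ d
  · by_contra hcon
    push Not at hcon
    obtain ⟨w, Q, -, hSt⟩ := hall V G hfree (fun X hX => hN V G X hfree hTG hX) d hd par w₀ hpar
      hdeg (fun v hv => (hcon v hv).trans_le
        (mul_le_mul_of_nonneg_right (min_le_left _ _) hd0.le))
    apply hTG.false
    refine ⟨⟨fun v => w (f v), ?_⟩, ?_⟩
    · intro x y hxy
      exact hf (hSt.inj _ (hfn x) _ (hfn y) hxy)
    · intro x y
      show G.Adj (w (f x)) (w (f y)) ↔ T.Adj x y
      rcases lt_trichotomy (f x) (f y) with h | h | h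
      · rw [hSt.adj _ (hfn y) _ h, hadj x y h]
      · rw [hf h]
        simp
      · rw [G.adj_comm, T.adj_comm, hSt.adj _ (hfn x) _ h, hadj y x h]
  · push Not at hd
    refine ⟨w₀, ⟨SimpleGraph.Walk.nil, by simp⟩, ?_⟩
    have h1 : w₀ ∈ tw G (ε * d) w₀ := by
      rw [mem_tw, df_self]
      simp only [card_empty, Nat.cast_zero]
      positivity
    have h2 : (1 : ℝ) ≤ (tw G (ε * d) w₀).card := by
      exact_mod_cast card_pos.2 ⟨w₀, h1⟩
    calc min δ (1 / D) * d ≤ 1 / D * d := mul_le_mul_of_nonneg_right (min_le_right _ _) hd0.le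
      _ ≤ 1 := by
        rw [one_div_mul_eq_div, div_le_one hD]
        exact hd.le
      _ ≤ _ := h2

end Pool.Agent.K4H78.TW
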