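import Pool.Agent.K4H78.TW.Core
import Pool.Agent.K4H78.TW.Main

/-!
# Nearly complete pairs in graphs without an induced forest
-/

set_option autoImplicit false

open Finset

namespace Pool.Agent.K4H78.TW

open Classical in
/-- number of pairs of equal or adjacent vertices -/
noncomputable def pe {V : Type} (G : SimpleGraph V) (A B : Finset V) : ℕ :=
  ∑ a ∈ A, (B.filter fun b => a = b ∨ G.Adj a b).card

/-- Two neighbourhoods (in a subgraph `H`) with many pairs of equal or adjacent vertices. -/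
theorem pairs {m : ℕ} (F : SimpleGraph (Fin m)) (hF : F.IsAcyclic) (V : Type) [Fintype V]
    (hV : Nonempty V) (G H : SimpleGraph V) (hHG : H ≤ G) (hemp : IsEmpty (F ↪g G))
    (hdeg : ∀ v, 0 < (ni H univ v).card) :
    ∃ x y, (ni H univ x).card * (ni H univ y).card <
      (m + 1) ^ 2 * pe G (ni H univ x) (ni H univ y) := by
  classical
  by_contra hcon
  push Not at hcon
  obtain ⟨T, hT, ⟨e⟩⟩ := Pool.Agent.H367R3.forest_in_tree F hF
  obtain ⟨par, f, hf, hfn, hpar, hadj⟩ := tree_order m (Fin (m + 1)) T hT (by simp)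
  obtain ⟨c, hc⟩ : ∃ c : V → V → ℝ, c = fun x y => if H.Adj x y then 1 else 0 := ⟨_, rfl⟩
  obtain ⟨g, hg⟩ : ∃ g : V → V → ℝ, g = fun x y => if x = y ∨ G.Adj x y then 1 else 0 := ⟨_, rfl⟩
  have hsumc : ∀ (x : V) (f : V → ℝ), ∑ a, c x a * f a = ∑ a ∈ ni H univ x, f a := by
    intro x f
    unfold ni
    rw [sum_filter]
    apply sum_congr rfl
    intro a _
    rw [hc]
    simp only
    split_ifs <;> simp
  have hD : ∀ x, Walk.D c x = ((ni H univ x).card : ℝ) := by
    intro x
    unfold Walk.D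
    have h1 := hsumc x (fun _ => 1)
    simp only [mul_one, sum_const, nsmul_eq_mul] at h1
    exact h1
  have hW : Walk.Wt c := by
    constructor
    · intro x y
      rw [hc]
      simp only
      split_ifs
      · exact zero_le_one
      · exact le_rfl
    · intro x y
      rw [hc]
      simp only [H.adj_comm]
    · intro x
      rw [hD]
      exact_mod_cast hdeg x
  have hpe : ∀ x y, ∑ a, ∑ b, c x a * c y b * g a b =
      (pe G (ni H univ x) (ni H univ y) : ℝ) := by
    intro x y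
    have h1 : ∀ a, ∑ b, c x a * c y b * g a b = c x a * ∑ b ∈ ni H univ y, g a b := by
      intro a
      rw [← hsumc y (fun b => g a b), mul_sum]
      apply sum_congr rfl
      intro b _
      ring
    rw [sum_congr rfl (fun a _ => h1 a), hsumc x (fun a => ∑ b ∈ ni H univ y, g a b)]
    unfold pe
    push_cast
    apply sum_congr rfl
    intro a _
    rw [hg]
    simp only
    rw [sum_boole]
  obtain ⟨w, hw1, hw2⟩ := Walk.core hW hV par hpar m G.Adj (by
      intro x y hxy
      rw [hc] at hxy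
      simp only [ne_eq, ite_eq_right_iff, one_ne_zero, imp_false, not_not] at hxy
      exact hHG hxy) (1 / (m + 1) ^ 2) (by positivity) (by
      rw [one_div, inv_mul_cancel₀ (by positivity)]) g (by
      intro x y
      rw [hg]
      simp only
      split_ifs
      · exact zero_le_one
      · exact le_rfl) (by
      intro x y hxy
      rw [hg]
      simp only
      rw [if_pos hxy]) (by
      intro x y
      rw [hpe, hD, hD, one_div, inv_mul_eq_div, le_div_iff₀ (by positivity)]
      have h1 := hcon x y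
      have h2 : (((m + 1) ^ 2 * pe G (ni H univ x) (ni H univ y) : ℕ) : ℝ) ≤
          (((ni H univ x).card * (ni H univ y).card : ℕ) : ℝ) := by exact_mod_cast h1
      push_cast at h2
      linarith)
  apply hemp.false
  refine e.trans ⟨⟨fun v => w (f v), ?_⟩, ?_⟩
  · intro x y hxy
    by_contra hne
    have key : ∀ x y, f x < f y → w (f x) ≠ w (f y) := by
      intro x y h
      by_cases hTA : Walk.TA par (f x) (f y)
      · exact (hw1 _ _ h (by have := hfn y; omega) hTA).ne
      · exact (hw2 _ _ h (by have := hfn y; omega) hTA).1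
    rcases lt_trichotomy (f x) (f y) with h | h | h
    · exact key x y h hxy
    · exact hne (hf h)
    · exact key y x h hxy.symm
  · intro x y
    show G.Adj (w (f x)) (w (f y)) ↔ T.Adj x y
    have key : ∀ x y, f x < f y → (G.Adj (w (f x)) (w (f y)) ↔ T.Adj x y) := by
      intro x y h
      have hTA : Walk.TA par (f x) (f y) ↔ T.Adj x y := by
        rw [hadj x y h]
        unfold Walk.TA
        constructor
        · rintro (⟨h1, h2⟩ | ⟨-, h2⟩)
          · have := hpar (f x) h1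
            omega
          · exact h2
        · intro h2
          exact Or.inr ⟨by omega, h2⟩
      rw [← hTA]
      constructor
      · intro h1
        by_contra h2
        exact (hw2 _ _ h (by have := hfn y; omega) h2).2 h1
      · intro h1
        exact hw1 _ _ h (by have := hfn y; omega) h1
    rcases lt_trichotomy (f x) (f y) with h | h | h
    · exact key x y h
    · rw [hf h]
      simp
    · rw [G.adj_comm, T.adj_comm]
      exact key y x h

theorem pe_le {V : Type} (G : SimpleGraph V) (A B : Finset V) :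
    pe G A B ≤ A.card + en G A B := by
  classical
  unfold pe en
  rw [card_eq_sum_ones, ← sum_add_distrib]
  apply sum_le_sum
  intro a _
  have h1 : (B.filter fun b => a = b ∨ G.Adj a b) ⊆ {a} ∪ ni G B a := by
    intro b hb
    obtain ⟨h2, h3⟩ := mem_filter.1 hb
    rw [mem_union, mem_singleton, mem_ni]
    rcases h3 with h3 | h3
    · exact Or.inl h3.symm
    · exact Or.inr ⟨h2, h3⟩
  have h4 := (card_le_card h1).trans (card_union_le _ _)
  rw [card_singleton] at h4
  exact h4

/-- double counting of non-adjacent pairs -/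
theorem nn_comm {V : Type} (G : SimpleGraph V) (A B : Finset V) :
    ∑ a ∈ A, (nn G B a).card = ∑ b ∈ B, (nn G A b).card := by
  classical
  unfold nn
  simp only [card_filter]
  rw [sum_comm]
  apply sum_congr rfl
  intro x _
  apply sum_congr rfl
  intro y _
  simp only [G.adj_comm]

/-- from a pair with positive density to a nearly complete pair -/
theorem upgrade (N : ℕ) (ζ ε : ℝ) (hζ : 0 < ζ) (hε : 0 < ε) (hε1 : ε ≤ 1) :
    ∃ δ > 0, ∃ D > 0, ∀ (V : Type) [Fintype V] (G : SimpleGraph V),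
    (∀ X : Finset V, Pool.Agent.W259.GS.Sh G X Set.univ → X.card < N) →
    ∀ (d : ℝ), D ≤ d → ∀ (X Y : Finset V), d ≤ X.card → d ≤ Y.card →
    ζ * (X.card * Y.card) ≤ (en G X Y : ℝ) →
    ∃ A B : Finset V, A ⊆ X ∧ B ⊆ Y ∧ Disjoint A B ∧ δ * d ≤ A.card ∧ δ * d ≤ B.card ∧
      (∀ a ∈ A, ((nn G B a).card : ℝ) ≤ ε * B.card) ∧
      ∀ b ∈ B, ((nn G A b).card : ℝ) ≤ ε * A.card := by
  classical
  obtain ⟨C, D₁, hC1, hC⟩ := cluster N
  obtain ⟨q, hq⟩ : ∃ q : ℕ, q = ⌈16 / (ε ^ 2 * ζ)⌉₊ := ⟨_, rfl⟩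
  have hq1 : 1 ≤ q := by
    rw [hq]
    exact Nat.one_le_ceil_iff.2 (by positivity)
  have hqr : 16 ≤ ε ^ 2 * ζ * q := by
    have h1 : 16 / (ε ^ 2 * ζ) ≤ q := by rw [hq]; exact Nat.le_ceil _
    rw [div_le_iff₀ (by positivity)] at h1
    linarith
  obtain ⟨c₁, hc₁⟩ : ∃ c₁ : ℕ, c₁ = C * q ^ D₁ := ⟨_, rfl⟩
  have hc₁1 : 1 ≤ c₁ := by
    have : 0 < c₁ := by rw [hc₁]; positivity
    omega
  have hc₁0 : (0 : ℝ) < c₁ := by exact_mod_cast hc₁1
  have hc₁r : (1 : ℝ) ≤ c₁ := by exact_mod_cast hc₁1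
  refine ⟨ζ / (8 * c₁), by positivity, 8 / ζ, by positivity, ?_⟩
  intro V _ G hsh d hd X Y hX hY hXY
  have hd0 : 0 < d := lt_of_lt_of_le (by positivity) hd
  have hζd : 8 ≤ ζ * d := by
    rw [div_le_iff₀ hζ] at hd
    linarith
  have hX0 : (0 : ℝ) < X.card := by linarith
  have hY0 : (0 : ℝ) < Y.card := by linarith
  -- vertices with many neighbours in Y
  obtain ⟨X', hX'⟩ : ∃ X' : Finset V, X' = X.filter fun a =>
      ζ / 2 * Y.card ≤ ((ni G Y a).card : ℝ) := ⟨_, rfl⟩
  have hX'c : ζ / 2 * X.card ≤ X'.card := by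
    have h1 : (en G X Y : ℝ) ≤ X'.card * Y.card + X.card * (ζ / 2 * Y.card) := by
      unfold en
      push_cast
      rw [← sum_filter_add_sum_filter_not X (fun a => ζ / 2 * Y.card ≤ ((ni G Y a).card : ℝ))]
      apply add_le_add
      · rw [← hX', ← nsmul_eq_mul, ← sum_const]
        apply sum_le_sum
        intro a _
        unfold ni
        exact_mod_cast card_filter_le _ _
      · refine (sum_le_sum (g := fun _ => ζ / 2 * (Y.card : ℝ)) ?_).trans ?_
        · intro a ha
          have := (mem_filter.1 ha).2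
          push Not at this
          exact this.le
        · rw [sum_const, nsmul_eq_mul]
          apply mul_le_mul_of_nonneg_right _ (by positivity)
          exact_mod_cast card_filter_le _ _
    have h2 : ζ / 2 * X.card * Y.card ≤ X'.card * (Y.card : ℝ) := by
      have h3 := hXY.trans h1
      linarith
    exact le_of_mul_le_mul_right h2 hY0
  obtain ⟨X₂, hX₂X', hX₂c, hX₂⟩ := hC V G Y X' q hq1 hsh
  rw [← hc₁] at hX₂c
  have hX₂c' : (X'.card : ℝ) ≤ c₁ * X₂.card := by exact_mod_cast hX₂c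
  have hX₂low : ζ * d ≤ 2 * c₁ * X₂.card := by
    have h1 : ζ / 2 * d ≤ ζ / 2 * X.card := mul_le_mul_of_nonneg_left hX (by positivity)
    linarith
  have hX₂ne : X₂.Nonempty := by
    rw [nonempty_iff_ne_empty]
    rintro rfl
    simp at hX₂low
    linarith
  obtain ⟨a₀, ha₀⟩ := hX₂ne
  obtain ⟨Y', hY'⟩ : ∃ Y' : Finset V, Y' = ni G Y a₀ := ⟨_, rfl⟩
  have hY'c : ζ / 2 * Y.card ≤ Y'.card := by
    have h1 := hX₂X' ha₀
    rw [hX'] at h1
    rw [hY']
    exact (mem_filter.1 h1).2
  have hY'Y : Y' ⊆ Y := by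
    rw [hY']
    intro z hz
    exact ((mem_ni _ _ _ _).1 hz).1
  have hY'4 : (4 : ℝ) ≤ Y'.card := by
    have h1 : ζ / 2 * d ≤ ζ / 2 * Y.card := mul_le_mul_of_nonneg_left hY (by positivity)
    linarith
  have hnnY' : ∀ a ∈ X₂, ((nn G Y' a).card : ℝ) ≤ ε ^ 2 / 8 * Y'.card := by
    intro a ha
    have h1 : (nn G Y' a).card ≤ (df G Y a a₀).card := by
      apply card_le_card
      intro z hz
      rw [mem_nn, hY', mem_ni] at hz
      rw [mem_df]
      tauto
    have h2 := hX₂ a ha a₀ ha₀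
    have h3 : (q : ℝ) * (nn G Y' a).card ≤ Y.card := by
      have : q * (nn G Y' a).card ≤ Y.card := (Nat.mul_le_mul_left _ h1).trans h2
      exact_mod_cast this
    have hq0 : (0 : ℝ) < q := by exact_mod_cast hq1
    have h4 : (q : ℝ) * (nn G Y' a).card ≤ q * (ε ^ 2 / 8 * Y'.card) := by
      have h5 : (Y.card : ℝ) ≤ 2 / ζ * Y'.card := by
        rw [div_mul_eq_mul_div, le_div_iff₀ hζ]
        linarith
      have h6 : 2 / ζ * (Y'.card : ℝ) ≤ q * (ε ^ 2 / 8 * Y'.card) := by
        rw [div_mul_eq_mul_div, div_le_iff₀ hζ]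
        have h7 : (0 : ℝ) ≤ Y'.card := Nat.cast_nonneg _
        nlinarith
      linarith
    exact le_of_mul_le_mul_left h4 hq0
  -- A
  obtain ⟨a, ha⟩ : ∃ a : ℕ, a = min X₂.card (Y'.card / 2) := ⟨_, rfl⟩
  obtain ⟨A, hAX₂, hAc⟩ := exists_subset_card_eq (show a ≤ X₂.card by rw [ha]; exact min_le_left _ _)
  have haY : 2 * a ≤ Y'.card := by
    have : a ≤ Y'.card / 2 := by rw [ha]; exact min_le_right _ _
    omega
  have hAlow : ζ / (8 * c₁) * d ≤ A.card := by
    rw [hAc, ha, Nat.cast_min]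
    apply le_min
    · rw [div_mul_eq_mul_div, div_le_iff₀ (by positivity)]
      nlinarith
    · have h1 : (Y'.card : ℝ) ≤ 4 * ((Y'.card / 2 : ℕ) : ℝ) := by
        have h2 : 4 ≤ Y'.card := by exact_mod_cast hY'4
        have h3 : Y'.card ≤ 4 * (Y'.card / 2) := by omega
        exact_mod_cast h3
      have h2 : ζ / 2 * d ≤ ζ / 2 * Y.card := mul_le_mul_of_nonneg_left hY (by positivity)
      rw [div_mul_eq_mul_div, div_le_iff₀ (by positivity)]
      have h3 : (0 : ℝ) ≤ ((Y'.card / 2 : ℕ) : ℝ) := Nat.cast_nonneg _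
      nlinarith
  have hA0 : (0 : ℝ) < A.card := lt_of_lt_of_le (by positivity) hAlow
  -- B
  obtain ⟨B₀, hB₀⟩ : ∃ B₀ : Finset V, B₀ = Y' \ A := ⟨_, rfl⟩
  have hB₀c : (Y'.card : ℝ) ≤ 2 * B₀.card := by
    have h1 : Y'.card ≤ B₀.card + A.card := by
      rw [hB₀]
      have := le_card_sdiff A Y'
      omega
    have h2 : Y'.card ≤ 2 * B₀.card := by omega
    exact_mod_cast h2
  have hB₀Y' : B₀ ⊆ Y' := by rw [hB₀]; exact sdiff_subset
  obtain ⟨B, hB⟩ : ∃ B : Finset V, B = B₀.filter fun b =>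
      ((nn G A b).card : ℝ) ≤ ε * A.card := ⟨_, rfl⟩
  have hBB₀ : B ⊆ B₀ := by rw [hB]; exact filter_subset _ _
  obtain ⟨B', hB'⟩ : ∃ B' : Finset V, B' = B₀.filter fun b =>
      ¬ ((nn G A b).card : ℝ) ≤ ε * A.card := ⟨_, rfl⟩
  have hBB' : (B.card : ℝ) + B'.card = B₀.card := by
    have h1 : B.card + B'.card = B₀.card := by
      rw [hB, hB']
      exact Finset.card_filter_add_card_filter_not _
    exact_mod_cast h1
  have hB'c : ε * B'.card ≤ ε ^ 2 / 4 * B₀.card := by
    have h1 : (∑ b ∈ B', ε * (A.card : ℝ)) ≤ ∑ b ∈ B', ((nn G A b).card : ℝ) := by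
      apply sum_le_sum
      intro b hb
      rw [hB'] at hb
      have := (mem_filter.1 hb).2
      push Not at this
      exact this.le
    have h2 : ∑ b ∈ B', ((nn G A b).card : ℝ) ≤ ∑ b ∈ B₀, ((nn G A b).card : ℝ) := by
      apply sum_le_sum_of_subset_of_nonneg
      · rw [hB']; exact filter_subset _ _
      · intro _ _ _
        exact Nat.cast_nonneg _
    have h3 : ∑ b ∈ B₀, ((nn G A b).card : ℝ) = ∑ a ∈ A, ((nn G B₀ a).card : ℝ) := by
      exact_mod_cast nn_comm G B₀ A
    have h4 : ∑ a ∈ A, ((nn G B₀ a).card : ℝ) ≤ ∑ a ∈ A, ε ^ 2 / 4 * (B₀.card : ℝ) := by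
      apply sum_le_sum
      intro x hx
      have h5 : ((nn G B₀ x).card : ℝ) ≤ (nn G Y' x).card := by
        have : (nn G B₀ x).card ≤ (nn G Y' x).card := by
          apply card_le_card
          intro z hz
          rw [mem_nn] at hz ⊢
          exact ⟨hB₀Y' hz.1, hz.2⟩
        exact_mod_cast this
      have h6 := hnnY' x (hAX₂ hx)
      have h7 : ε ^ 2 / 8 * (Y'.card : ℝ) ≤ ε ^ 2 / 8 * (2 * B₀.card) :=
        mul_le_mul_of_nonneg_left hB₀c (by positivity)
      linarith
    rw [sum_const, nsmul_eq_mul] at h1 h4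
    have h5 : (A.card : ℝ) * (ε * B'.card) ≤ A.card * (ε ^ 2 / 4 * B₀.card) := by
      calc (A.card : ℝ) * (ε * B'.card) = B'.card * (ε * A.card) := by ring
        _ ≤ A.card * (ε ^ 2 / 4 * B₀.card) := by
          rw [h3] at h2
          exact (h1.trans h2).trans h4
    exact le_of_mul_le_mul_left h5 hA0
  have hB'c' : (B'.card : ℝ) ≤ ε / 4 * B₀.card := by
    have h1 : ε * (B'.card : ℝ) ≤ ε * (ε / 4 * B₀.card) := by
      calc ε * (B'.card : ℝ) ≤ ε ^ 2 / 4 * B₀.card := hB'c
        _ = ε * (ε / 4 * B₀.card) := by ring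
    exact le_of_mul_le_mul_left h1 hε
  have hB₀0 : (0 : ℝ) ≤ B₀.card := Nat.cast_nonneg _
  have hBc : 3 / 4 * (B₀.card : ℝ) ≤ B.card := by nlinarith
  refine ⟨A, B, ?_, ?_, ?_, hAlow, ?_, ?_, ?_⟩
  · intro z hz
    have h1 := hX₂X' (hAX₂ hz)
    rw [hX'] at h1
    exact (mem_filter.1 h1).1
  · exact hBB₀.trans (hB₀Y'.trans hY'Y)
  · rw [disjoint_left]
    intro z hzA hzB
    have h1 := hBB₀ hzB
    rw [hB₀, mem_sdiff] at h1
    exact h1.2 hzA
  · have h1 : ζ / 2 * d ≤ ζ / 2 * Y.card := mul_le_mul_of_nonneg_left hY (by positivity)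
    have h2 : (B.card : ℝ) ≥ 3 / 16 * (ζ * d) := by nlinarith
    have h3 : ζ / (8 * c₁) * d ≤ 1 / 8 * (ζ * d) := by
      rw [div_mul_eq_mul_div, div_le_iff₀ (by positivity)]
      have : 0 < ζ * d := by positivity
      nlinarith
    have h4 : 0 < ζ * d := by positivity
    linarith
  · intro x hx
    have h1 : ((nn G B x).card : ℝ) ≤ (nn G Y' x).card := by
      have : (nn G B x).card ≤ (nn G Y' x).card := by
        apply card_le_card
        intro z hz
        rw [mem_nn] at hz ⊢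
        exact ⟨hB₀Y' (hBB₀ hz.1), hz.2⟩
      exact_mod_cast this
    have h2 := hnnY' x (hAX₂ hx)
    have h3 : ε ^ 2 / 8 * (Y'.card : ℝ) ≤ ε ^ 2 / 8 * (2 * B₀.card) :=
      mul_le_mul_of_nonneg_left hB₀c (by positivity)
    have h4 : ε ^ 2 / 8 * (2 * (B₀.card : ℝ)) ≤ ε * B.card := by
      have h5 : ε ^ 2 ≤ ε := by nlinarith
      have h6 : ε ^ 2 / 8 * (2 * (B₀.card : ℝ)) ≤ ε / 8 * (2 * B₀.card) :=
        mul_le_mul_of_nonneg_right (by linarith) (by positivity)
      nlinarith
    linarith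
  · intro b hb
    rw [hB] at hb
    exact (mem_filter.1 hb).2

end Pool.Agent.K4H78.TW
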