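import Pool.Agent.K4H78.TW.Dense

/-!
# Nearly complete pairs in graphs without an induced forest: final forms
-/

set_option autoImplicit false

open Finset

namespace Pool.Agent.K4H78.TW

/-- both sides of the pair `A`, `B` are nearly complete to the other one -/
def NC {V : Type} (G : SimpleGraph V) (ε : ℝ) (A B : Finset V) : Prop :=
  Disjoint A B ∧ (∀ a ∈ A, ((nn G B a).card : ℝ) ≤ ε * B.card) ∧
    ∀ b ∈ B, ((nn G A b).card : ℝ) ≤ ε * A.card

theorem near_pairs {m : ℕ} (F : SimpleGraph (Fin m)) (hF : F.IsAcyclic) (k : ℕ) (ε : ℝ)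
    (hε : 0 < ε) : ∃ δ > (0 : ℝ), ∀ (V : Type) [Fintype V] (G : SimpleGraph V), G.CliqueFree k →
    IsEmpty (F ↪g G) → ∀ (d : ℕ), 1 ≤ d → Nonempty V → (∀ v, d ≤ (ni G univ v).card) →
    ∃ A B : Finset V, NC G ε A B ∧ δ * d ≤ A.card ∧ δ * d ≤ B.card ∧
      ∃ x y, A ⊆ ni G univ x ∧ B ⊆ ni G univ y := by
  classical
  obtain ⟨N, hN⟩ := Pool.Agent.W259.GS.noShatter F hF.colorable_two k
  obtain ⟨M, hM⟩ : ∃ M : ℝ, M = ((m : ℝ) + 1) ^ 2 := ⟨_, rfl⟩
  have hM0 : 0 < M := by rw [hM]; positivity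
  obtain ⟨δ, hδ, D, hD, hup⟩ := upgrade N (1 / (2 * M)) (min ε 1) (by positivity)
    (lt_min hε one_pos) (min_le_right _ _)
  obtain ⟨D', hD'⟩ : ∃ D' : ℝ, D' = max D (2 * M) := ⟨_, rfl⟩
  have hD'0 : 0 < D' := by rw [hD']; exact lt_max_of_lt_left hD
  refine ⟨min δ (1 / D'), lt_min hδ (by positivity), ?_⟩
  intro V _ G hfree hemp d hd1 hV hdeg
  have hd0 : (0 : ℝ) < d := by exact_mod_cast hd1
  by_cases hd : D' ≤ d
  · have hdD : D ≤ d := (le_max_left _ _).trans (hD' ▸ hd)
    have hdM : 2 * M ≤ d := (le_max_right _ _).trans (hD' ▸ hd)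
    obtain ⟨x, y, hxy⟩ := pairs F hF V hV G G le_rfl hemp
      (fun v => lt_of_lt_of_le (by omega) (hdeg v))
    obtain ⟨X, hX⟩ : ∃ X, X = ni G univ x := ⟨_, rfl⟩
    obtain ⟨Y, hY⟩ : ∃ Y, Y = ni G univ y := ⟨_, rfl⟩
    rw [← hX, ← hY] at hxy
    have hXd : (d : ℝ) ≤ X.card := by rw [hX]; exact_mod_cast hdeg x
    have hYd : (d : ℝ) ≤ Y.card := by rw [hY]; exact_mod_cast hdeg y
    have hpe := pe_le G X Y
    have h1 : (X.card : ℝ) * Y.card < M * pe G X Y := by
      have h2 : ((X.card * Y.card : ℕ) : ℝ) < (((m + 1) ^ 2 * pe G X Y : ℕ) : ℝ) := by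
        exact_mod_cast hxy
      push_cast at h2
      rw [hM]
      exact h2
    have h2 : (pe G X Y : ℝ) ≤ X.card + en G X Y := by exact_mod_cast hpe
    have hX0 : (0 : ℝ) < X.card := by linarith
    have h3 : 2 * M * X.card ≤ Y.card * (X.card : ℝ) :=
      mul_le_mul_of_nonneg_right (hdM.trans hYd) hX0.le
    have h4 : 1 / (2 * M) * ((X.card : ℝ) * Y.card) ≤ en G X Y := by
      rw [one_div, inv_mul_eq_div, div_le_iff₀ (by positivity)]
      have h5 : M * (pe G X Y : ℝ) ≤ M * (X.card + en G X Y) :=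
        mul_le_mul_of_nonneg_left h2 hM0.le
      nlinarith
    obtain ⟨A, B, hA, hB, hdis, hAc, hBc, hAB, hBA⟩ := hup V G
      (fun Z hZ => hN V G Z hfree hemp hZ) d hdD X Y hXd hYd h4
    refine ⟨A, B, ⟨hdis, fun a ha => (hAB a ha).trans ?_, fun b hb => (hBA b hb).trans ?_⟩,
      ?_, ?_, x, y, hX ▸ hA, hY ▸ hB⟩
    · exact mul_le_mul_of_nonneg_right (min_le_left _ _) (Nat.cast_nonneg _)
    · exact mul_le_mul_of_nonneg_right (min_le_left _ _) (Nat.cast_nonneg _)
    · exact (mul_le_mul_of_nonneg_right (min_le_left _ _) hd0.le).trans hAc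
    · exact (mul_le_mul_of_nonneg_right (min_le_left _ _) hd0.le).trans hBc
  · push Not at hd
    have h1 : min δ (1 / D') * d ≤ 1 := by
      calc min δ (1 / D') * d ≤ 1 / D' * d := mul_le_mul_of_nonneg_right (min_le_right _ _) hd0.le
        _ ≤ 1 := by
          rw [one_div_mul_eq_div, div_le_one hD'0]
          exact hd.le
    obtain ⟨v⟩ := hV
    obtain ⟨u, hu⟩ := card_pos.1 (lt_of_lt_of_le (Nat.lt_of_lt_of_le Nat.one_pos hd1) (hdeg v))
    have huv : G.Adj v u := ((mem_ni _ _ _ _).1 hu).2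
    refine ⟨{u}, {v}, ⟨?_, ?_, ?_⟩, ?_, ?_, v, u, ?_, ?_⟩
    · rw [disjoint_singleton]
      exact huv.ne'
    · intro a ha
      rw [mem_singleton] at ha
      have : nn G {v} a = ∅ := by
        ext z
        rw [mem_nn, mem_singleton]
        simp only [notMem_empty, iff_false, not_and, not_not]
        rintro rfl
        rw [ha]
        exact huv.symm
      rw [this]
      simp only [card_empty, Nat.cast_zero]
      positivity
    · intro b hb
      rw [mem_singleton] at hb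
      have : nn G {u} b = ∅ := by
        ext z
        rw [mem_nn, mem_singleton]
        simp only [notMem_empty, iff_false, not_and, not_not]
        rintro rfl
        rw [hb]
        exact huv
      rw [this]
      simp only [card_empty, Nat.cast_zero]
      positivity
    · rw [card_singleton]
      exact_mod_cast h1
    · rw [card_singleton]
      exact_mod_cast h1
    · intro z hz
      rw [mem_singleton] at hz
      rw [hz]
      exact hu
    · intro z hz
      rw [mem_singleton] at hz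
      rw [hz, mem_ni]
      exact ⟨mem_univ _, huv.symm⟩

theorem card_map_nn {V : Type} (G : SimpleGraph V) (S : Finset V)
    (B : Finset {x // x ∈ S}) (a : {x // x ∈ S}) :
    (nn G (B.map (Function.Embedding.subtype _)) a.1).card =
      (nn (G.comap (Subtype.val : {x // x ∈ S} → V)) B a).card := by
  classical
  rw [← Finset.card_map (Function.Embedding.subtype _) (s := nn _ B a)]
  congr 1
  ext z
  rw [mem_nn, mem_map, mem_map]
  constructor
  · rintro ⟨⟨y, hy, rfl⟩, h2⟩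
    exact ⟨y, (mem_nn _ _ _ _).2 ⟨hy, h2⟩, rfl⟩
  · rintro ⟨y, hy, rfl⟩
    rw [mem_nn] at hy
    exact ⟨⟨y, hy.1, rfl⟩, hy.2⟩

/-- in a subset with large minimum degree -/
theorem near_pairs_sub {m : ℕ} (F : SimpleGraph (Fin m)) (hF : F.IsAcyclic) (k : ℕ) (ε : ℝ)
    (hε : 0 < ε) : ∃ δ > (0 : ℝ), ∀ (V : Type) [Fintype V] (G : SimpleGraph V), G.CliqueFree k →
    IsEmpty (F ↪g G) → ∀ (S : Finset V) (d : ℕ), 1 ≤ d → S.Nonempty →
    (∀ v ∈ S, d ≤ (ni G S v).card) →
    ∃ A B : Finset V, NC G ε A B ∧ δ * d ≤ A.card ∧ δ * d ≤ B.card ∧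
      ∃ x ∈ S, ∃ y ∈ S, A ⊆ ni G S x ∧ B ⊆ ni G S y := by
  classical
  obtain ⟨δ, hδ, h⟩ := near_pairs F hF k ε hε
  refine ⟨δ, hδ, ?_⟩
  intro V _ G hfree hemp S d hd hS hdeg
  obtain ⟨G', hG'⟩ : ∃ G' : SimpleGraph {x // x ∈ S}, G' = G.comap Subtype.val := ⟨_, rfl⟩
  have emb : G' ↪g G := by
    rw [hG']
    exact SimpleGraph.Embedding.comap (Function.Embedding.subtype _) G
  have hni : ∀ v : {x // x ∈ S}, (ni G' univ v).map (Function.Embedding.subtype _) =
      ni G S v.1 := by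
    intro v
    ext z
    rw [mem_map, mem_ni]
    constructor
    · rintro ⟨y, hy, rfl⟩
      rw [mem_ni, hG'] at hy
      exact ⟨y.2, hy.2⟩
    · rintro ⟨h1, h2⟩
      refine ⟨⟨z, h1⟩, ?_, rfl⟩
      rw [mem_ni, hG']
      exact ⟨mem_univ _, h2⟩
  obtain ⟨s, hs⟩ := hS
  obtain ⟨A, B, hNC, hA, hB, x, y, hx, hy⟩ := h {x // x ∈ S} G'
    (hfree.comap ⟨emb.toCopy⟩) ⟨fun f => hemp.false (f.trans emb)⟩ d hd ⟨⟨s, hs⟩⟩ (by
      intro v
      have := hdeg v.1 v.2
      rw [← hni v, card_map] at this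
      exact this)
  obtain ⟨h1, h2, h3⟩ := hNC
  refine ⟨A.map (Function.Embedding.subtype _), B.map (Function.Embedding.subtype _),
    ⟨?_, ?_, ?_⟩, ?_, ?_, x.1, x.2, y.1, y.2, ?_, ?_⟩
  · rw [disjoint_map]
    exact h1
  · intro a ha
    rw [mem_map] at ha
    obtain ⟨a, ha, rfl⟩ := ha
    have h4 := h2 a ha
    rw [hG'] at h4
    rw [card_map]
    show ((nn G _ a.1).card : ℝ) ≤ _
    rw [card_map_nn]
    exact h4
  · intro b hb
    rw [mem_map] at hb
    obtain ⟨b, hb, rfl⟩ := hb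
    have h4 := h3 b hb
    rw [hG'] at h4
    rw [card_map]
    show ((nn G _ b.1).card : ℝ) ≤ _
    rw [card_map_nn]
    exact h4
  · rw [card_map]
    exact hA
  · rw [card_map]
    exact hB
  · rw [← hni x]
    exact map_subset_map.2 hx
  · rw [← hni y]
    exact map_subset_map.2 hy

/-- Greedy colouring -/
theorem colorable_of_deg {V : Type} [Fintype V] (G : SimpleGraph V) (k : ℕ) (hk : 1 ≤ k)
    (h : ∀ U : Finset V, U.Nonempty → ∃ v ∈ U, (ni G U v).card < k) : G.Colorable k := by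
  classical
  have key : ∀ m : ℕ, ∀ U : Finset V, U.card = m →
      ∃ c : V → Fin k, ∀ u ∈ U, ∀ v ∈ U, G.Adj u v → c u ≠ c v := by
    intro m
    induction m with
    | zero =>
      intro U hU
      rw [card_eq_zero] at hU
      subst hU
      exact ⟨fun _ => ⟨0, hk⟩, fun u hu => absurd hu (notMem_empty u)⟩
    | succ m ih =>
      intro U hU
      have hne : U.Nonempty := by rw [← card_pos]; omega
      obtain ⟨v, hv, hdeg⟩ := h U hne
      obtain ⟨c, hc⟩ := ih (U.erase v) (by rw [card_erase_of_mem hv]; omega)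
      have hfree : ∃ x : Fin k, x ∉ (ni G U v).image c := by
        by_contra hcon
        push Not at hcon
        have h1 : (univ : Finset (Fin k)) ⊆ (ni G U v).image c := fun x _ => hcon x
        have h2 := card_le_card h1
        rw [card_univ, Fintype.card_fin] at h2
        have h3 : ((ni G U v).image c).card ≤ (ni G U v).card := card_image_le
        omega
      obtain ⟨x, hx⟩ := hfree
      refine ⟨Function.update c v x, ?_⟩
      intro a ha b hb hab
      by_cases hav : a = v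
      · subst hav
        have hba : b ≠ a := hab.ne'
        rw [Function.update_self, Function.update_of_ne hba]
        intro hcx
        apply hx
        rw [mem_image]
        exact ⟨b, (mem_ni _ _ _ _).2 ⟨hb, hab⟩, hcx.symm⟩
      · by_cases hbv : b = v
        · subst hbv
          rw [Function.update_self, Function.update_of_ne hav]
          intro hcx
          apply hx
          rw [mem_image]
          exact ⟨a, (mem_ni _ _ _ _).2 ⟨ha, hab.symm⟩, hcx⟩
        · rw [Function.update_of_ne hav, Function.update_of_ne hbv]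
          exact hc a (mem_erase.2 ⟨hav, ha⟩) b (mem_erase.2 ⟨hbv, hb⟩) hab
  obtain ⟨c, hc⟩ := key _ univ rfl
  exact ⟨SimpleGraph.Coloring.mk c (fun {u v} huv => hc u (mem_univ u) v (mem_univ v) huv)⟩

/-- nearly complete pairs of size linear in the chromatic number -/
theorem near_pairs_chromatic {m : ℕ} (F : SimpleGraph (Fin m)) (hF : F.IsAcyclic) (k : ℕ) (ε : ℝ)
    (hε : 0 < ε) : ∃ δ > (0 : ℝ), ∀ (V : Type) [Fintype V] (G : SimpleGraph V), G.CliqueFree k →
    IsEmpty (F ↪g G) → ∀ (c : ℕ), 1 ≤ c → ¬ G.Colorable c →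
    ∃ A B : Finset V, NC G ε A B ∧ δ * c ≤ A.card ∧ δ * c ≤ B.card ∧
      ∃ x y, A ⊆ ni G univ x ∧ B ⊆ ni G univ y := by
  classical
  obtain ⟨δ, hδ, h⟩ := near_pairs_sub F hF k ε hε
  refine ⟨δ, hδ, ?_⟩
  intro V _ G hfree hemp c hc hcol
  have h1 : ¬ ∀ U : Finset V, U.Nonempty → ∃ v ∈ U, (ni G U v).card < c :=
    fun h => hcol (colorable_of_deg G c hc h)
  push Not at h1
  obtain ⟨U, hU, hdeg⟩ := h1
  obtain ⟨A, B, hNC, hA, hB, x, -, y, -, hx, hy⟩ := h V G hfree hemp U c hc hU hdeg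
  have hsub : ∀ v, ni G U v ⊆ ni G univ v := by
    intro v z hz
    rw [mem_ni] at hz ⊢
    exact ⟨mem_univ _, hz.2⟩
  exact ⟨A, B, hNC, hA, hB, x, y, hx.trans (hsub x), hy.trans (hsub y)⟩

end Pool.Agent.K4H78.TW
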