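import Pool.Agent.K4H78.TW.Main

/-!
# Near-twins: final forms
-/

set_option autoImplicit false

open Finset

namespace Pool.Agent.K4H78.TW

theorem ni_univ {V : Type} [Fintype V] [DecidableEq V] (G : SimpleGraph V)
    [DecidableRel G.Adj] (v : V) : ni G univ v = G.neighborFinset v := by
  ext z
  rw [mem_ni, SimpleGraph.mem_neighborFinset]
  simp

theorem df_univ {V : Type} [Fintype V] [DecidableEq V] (G : SimpleGraph V)
    [DecidableRel G.Adj] (u v : V) :
    df G univ u v = symmDiff (G.neighborFinset u) (G.neighborFinset v) := by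
  ext z
  rw [mem_df, Finset.mem_symmDiff, SimpleGraph.mem_neighborFinset, SimpleGraph.mem_neighborFinset]
  simp only [mem_univ, true_and]
  tauto

theorem deg_walk {V : Type} [Fintype V] [DecidableEq V] (G : SimpleGraph V)
    [DecidableRel G.Adj] (K : ℝ) (hK : 1 ≤ K)
    (hG : ∀ u v, G.Adj u v → (G.degree u : ℝ) ≤ K * G.degree v) :
    ∀ (u v : V) (p : G.Walk u v), (G.degree u : ℝ) ≤ K ^ p.length * G.degree v := by
  intro u v p
  induction p with
  | nil => simp
  | cons h p ih =>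
    rename_i a b c
    rw [SimpleGraph.Walk.length_cons, pow_succ]
    calc (G.degree a : ℝ) ≤ K * G.degree b := hG a b h
      _ ≤ K * (K ^ p.length * G.degree c) := mul_le_mul_of_nonneg_left ih (by linarith)
      _ = K ^ p.length * K * G.degree c := by ring

theorem deg_near {V : Type} [Fintype V] [DecidableEq V] (G : SimpleGraph V)
    [DecidableRel G.Adj] (K : ℝ) (hK : 1 ≤ K)
    (hG : ∀ u v, G.Adj u v → (G.degree u : ℝ) ≤ K * G.degree v) (n : ℕ)
    (u v : V) (h : ∃ p : G.Walk u v, p.length ≤ n) :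
    (G.degree u : ℝ) ≤ K ^ n * G.degree v ∧ (G.degree v : ℝ) ≤ K ^ n * G.degree u := by
  obtain ⟨p, hp⟩ := h
  have h1 : K ^ p.length ≤ K ^ n := pow_le_pow_right₀ hK hp
  constructor
  · exact (deg_walk G K hK hG u v p).trans (mul_le_mul_of_nonneg_right h1 (Nat.cast_nonneg _))
  · have h2 := deg_walk G K hK hG v u p.reverse
    rw [SimpleGraph.Walk.length_reverse] at h2
    exact h2.trans (mul_le_mul_of_nonneg_right h1 (Nat.cast_nonneg _))

/-- near-twins in graphs without an induced forest -/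
theorem twins_forest {m : ℕ} (F : SimpleGraph (Fin m)) (hF : F.IsAcyclic) (k : ℕ) (K ε : ℝ)
    (hε : 0 < ε) :
    ∃ δ : ℝ, 0 < δ ∧ ∀ (V : Type) [Fintype V] [DecidableEq V] (G : SimpleGraph V)
      [DecidableRel G.Adj], G.CliqueFree k → IsEmpty (F ↪g G) →
      (∀ u v, G.Adj u v → (G.degree u : ℝ) ≤ K * G.degree v) →
      ∀ w, ∃ v, (∃ p : G.Walk w v, p.length ≤ m) ∧
        δ * G.degree v ≤ ((univ.filter fun u => ((symmDiff (G.neighborFinset u)
          (G.neighborFinset v)).card : ℝ) ≤ ε * G.degree v).card : ℝ) := by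
  obtain ⟨T, hT, ⟨e⟩⟩ := Pool.Agent.H367R3.forest_in_tree F hF
  obtain ⟨L, hL⟩ : ∃ L : ℝ, L = max K 1 := ⟨_, rfl⟩
  have hL1 : 1 ≤ L := by rw [hL]; exact le_max_right _ _
  have hL2 : 1 ≤ L ^ (2 * m) := one_le_pow₀ hL1
  have hL0 : 0 < L ^ m := by positivity
  obtain ⟨δ, hδ, hall⟩ := twins_tree m (k + 1) (by omega) (Fin (m + 1)) T hT (by simp)
    (L ^ (2 * m)) ε hL2 hε
  refine ⟨δ / L ^ (2 * m), by positivity, ?_⟩
  intro V _ _ G _ hfree hemp hG w
  have hG' : ∀ u v, G.Adj u v → (G.degree u : ℝ) ≤ L * G.degree v := by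
    intro u v huv
    refine (hG u v huv).trans (mul_le_mul_of_nonneg_right ?_ (Nat.cast_nonneg _))
    rw [hL]
    exact le_max_left _ _
  obtain ⟨d, hd⟩ : ∃ d : ℝ, d = G.degree w / L ^ m := ⟨_, rfl⟩
  have hdw : L ^ m * d = G.degree w := by
    rw [hd]
    field_simp
  have hd0 : 0 ≤ d := by rw [hd]; positivity
  have hL2' : L ^ (2 * m) * d = L ^ m * (L ^ m * d) := by
    rw [two_mul, pow_add]
    ring
  have hnear : ∀ v, (∃ p : G.Walk w v, p.length ≤ m) →
      d ≤ (G.degree v : ℝ) ∧ (G.degree v : ℝ) ≤ L ^ (2 * m) * d := by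
    intro v hv
    obtain ⟨h1, h2⟩ := deg_near G L hL1 hG' m w v hv
    constructor
    · have h3 : L ^ m * d ≤ L ^ m * G.degree v := by rw [hdw]; exact h1
      exact le_of_mul_le_mul_left h3 hL0
    · rw [hL2', hdw]
      exact h2
  obtain ⟨v, hv, h1⟩ := hall V G (hfree.mono (by omega))
    ⟨fun f => hemp.false (e.trans f)⟩ d w (by
      intro v hv
      rw [ni_univ, SimpleGraph.card_neighborFinset_eq_degree]
      exact hnear v hv)
  refine ⟨v, hv, ?_⟩
  obtain ⟨h2, h3⟩ := hnear v hv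
  calc δ / L ^ (2 * m) * G.degree v ≤ δ / L ^ (2 * m) * (L ^ (2 * m) * d) :=
        mul_le_mul_of_nonneg_left h3 (by positivity)
    _ = δ * d := by field_simp
    _ ≤ ((tw G (ε * d) v).card : ℝ) := h1
    _ ≤ _ := by
      have h4 : tw G (ε * d) v ⊆ univ.filter fun u => ((symmDiff (G.neighborFinset u)
          (G.neighborFinset v)).card : ℝ) ≤ ε * G.degree v := by
        intro u hu
        rw [mem_tw, df_univ] at hu
        rw [mem_filter]
        exact ⟨mem_univ _, hu.trans (mul_le_mul_of_nonneg_left h2 hε.le)⟩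
      exact_mod_cast card_le_card h4

/-- the conjecture for balanced graphs with few near-twins -/
theorem gs_few_twins {m : ℕ} (F : SimpleGraph (Fin m)) (hF : F.IsAcyclic) (k : ℕ) (K ε : ℝ)
    (hε : 0 < ε) (M : ℕ) :
    ∃ c : ℕ, ∀ (V : Type) [Fintype V] [DecidableEq V] (G : SimpleGraph V)
      [DecidableRel G.Adj], G.CliqueFree k → IsEmpty (F ↪g G) →
      (∀ u v, G.Adj u v → (G.degree u : ℝ) ≤ K * G.degree v) →
      (∀ v, 0 < G.degree v → (univ.filter fun u => ((symmDiff (G.neighborFinset u)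
          (G.neighborFinset v)).card : ℝ) ≤ ε * G.degree v).card ≤ M) →
      (∀ v, G.degree v < c) ∧ G.Colorable c := by
  obtain ⟨δ, hδ, hall⟩ := twins_forest F hF k K ε hε
  obtain ⟨L, hL⟩ : ∃ L : ℝ, L = max K 1 := ⟨_, rfl⟩
  have hL1 : 1 ≤ L := by rw [hL]; exact le_max_right _ _
  have hL0 : 0 < L ^ m := by positivity
  refine ⟨⌊L ^ m * (M / δ)⌋₊ + 1, ?_⟩
  intro V _ _ G _ hfree hemp hG hM
  have hG' : ∀ u v, G.Adj u v → (G.degree u : ℝ) ≤ L * G.degree v := by
    intro u v huv
    refine (hG u v huv).trans (mul_le_mul_of_nonneg_right ?_ (Nat.cast_nonneg _))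
    rw [hL]
    exact le_max_left _ _
  have hdeg : ∀ w, G.degree w < ⌊L ^ m * (M / δ)⌋₊ + 1 := by
    intro w
    rw [Nat.lt_succ_iff]
    apply Nat.le_floor
    obtain ⟨v, hv, h1⟩ := hall V G hfree hemp hG w
    obtain ⟨h2, h3⟩ := deg_near G L hL1 hG' m w v hv
    by_cases hw : G.degree w = 0
    · rw [hw]
      simp only [Nat.cast_zero]
      positivity
    have hw0 : (0 : ℝ) < G.degree w := by exact_mod_cast Nat.pos_of_ne_zero hw
    have hv0 : (0 : ℝ) < G.degree v := by
      by_contra hcon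
      push Not at hcon
      have h4 : L ^ m * (G.degree v : ℝ) ≤ 0 := mul_nonpos_of_nonneg_of_nonpos hL0.le hcon
      linarith
    have h4 := hM v (by exact_mod_cast hv0)
    have h5 : δ * (G.degree v : ℝ) ≤ M := h1.trans (by exact_mod_cast h4)
    have h6 : (G.degree v : ℝ) ≤ M / δ := by
      rw [le_div_iff₀ hδ]
      linarith
    exact h2.trans (mul_le_mul_of_nonneg_left h6 hL0.le)
  refine ⟨hdeg, ?_⟩
  obtain ⟨κ, hκ⟩ := Pool.Agent.TH346.LG.greedy (fun x y => G.Adj x y) (fun x y h => h.symm)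
    (⌊L ^ m * (M / δ)⌋₊ + 1) (by
      intro x Y hY
      refine lt_of_le_of_lt (card_le_card ?_) (hdeg x)
      intro y hy
      rw [SimpleGraph.mem_neighborFinset]
      exact hY y hy)
  refine ⟨SimpleGraph.Coloring.mk κ ?_⟩
  intro x y hxy
  exact hκ x y hxy.ne hxy

/-- the conjecture for balanced graphs in which no two neighbourhoods nearly agree -/
theorem gs_codegree {m : ℕ} (F : SimpleGraph (Fin m)) (hF : F.IsAcyclic) (k : ℕ) (K ε : ℝ)
    (hε : 0 < ε) :
    ∃ c : ℕ, ∀ (V : Type) [Fintype V] [DecidableEq V] (G : SimpleGraph V)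
      [DecidableRel G.Adj], G.CliqueFree k → IsEmpty (F ↪g G) →
      (∀ u v, G.Adj u v → (G.degree u : ℝ) ≤ K * G.degree v) →
      (∀ u v, u ≠ v → ((G.neighborFinset u ∩ G.neighborFinset v).card : ℝ) ≤
        (1 - ε) * G.degree v) →
      (∀ v, G.degree v < c) ∧ G.Colorable c := by
  obtain ⟨c, hc⟩ := gs_few_twins F hF k K (ε / 2) (by positivity) 1
  refine ⟨c, ?_⟩
  intro V _ _ G _ hfree hemp hG hcod
  apply hc V G hfree hemp hG
  intro v hv
  rw [card_le_one]
  have key : ∀ u, u ∈ (univ.filter fun u => ((symmDiff (G.neighborFinset u)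
      (G.neighborFinset v)).card : ℝ) ≤ ε / 2 * G.degree v) → u = v := by
    intro u hu
    by_contra huv
    rw [mem_filter] at hu
    have h1 := hcod u v huv
    have h2 : G.degree v ≤ (symmDiff (G.neighborFinset u) (G.neighborFinset v)).card +
        (G.neighborFinset u ∩ G.neighborFinset v).card := by
      rw [← SimpleGraph.card_neighborFinset_eq_degree]
      refine (card_le_card ?_).trans (card_union_le _ _)
      intro z hz
      rw [mem_union, Finset.mem_symmDiff, mem_inter]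
      tauto
    have h3 : (G.degree v : ℝ) ≤ (symmDiff (G.neighborFinset u) (G.neighborFinset v)).card +
        (G.neighborFinset u ∩ G.neighborFinset v).card := by exact_mod_cast h2
    have h4 := hu.2
    have h5 : (0 : ℝ) < G.degree v := by exact_mod_cast hv
    nlinarith
  intro a ha b hb
  rw [key a ha, key b hb]

end Pool.Agent.K4H78.TW
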