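import Pool.Agent.K4H78.TW.Core
import Pool.Agent.K4H78.TW.Main

/-!
# Closed walks of length four in nearly regular graphs without an induced forest
-/

set_option autoImplicit false

open Finset

namespace Pool.Agent.K4H78.TW

section mat

variable {V : Type} [Fintype V] [DecidableEq V]

/-- entries of the powers of a symmetric nonnegative matrix with bounded row sums -/
theorem pow_nonneg' (A : Matrix V V ℝ) (h0 : ∀ x y, 0 ≤ A x y) (r : ℕ) :
    ∀ x y, 0 ≤ (A ^ r) x y := by
  induction r with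
  | zero =>
    intro x y
    rw [pow_zero, Matrix.one_apply]
    split_ifs <;> norm_num
  | succ r ih =>
    intro x y
    rw [pow_succ, Matrix.mul_apply]
    exact sum_nonneg fun z _ => mul_nonneg (ih x z) (h0 z y)

theorem pow_row (A : Matrix V V ℝ) (h0 : ∀ x y, 0 ≤ A x y) (L : ℝ) (hL0 : 0 ≤ L)
    (hL : ∀ x, ∑ y, A x y ≤ L) (r : ℕ) : ∀ x, ∑ y, (A ^ r) x y ≤ L ^ r := by
  induction r with
  | zero =>
    intro x
    simp [Matrix.one_apply]
  | succ r ih =>
    intro x
    calc ∑ y, (A ^ (r + 1)) x y = ∑ y, ∑ z, (A ^ r) x z * A z y := by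
          apply sum_congr rfl
          intro y _
          rw [pow_succ, Matrix.mul_apply]
      _ = ∑ z, ∑ y, (A ^ r) x z * A z y := sum_comm
      _ ≤ ∑ z, (A ^ r) x z * L := by
          apply sum_le_sum
          intro z _
          rw [← mul_sum]
          exact mul_le_mul_of_nonneg_left (hL z) (pow_nonneg' A h0 r x z)
      _ = (∑ z, (A ^ r) x z) * L := by rw [sum_mul]
      _ ≤ L ^ r * L := mul_le_mul_of_nonneg_right (ih x) hL0
      _ = L ^ (r + 1) := by rw [pow_succ]

theorem pow_entry (A : Matrix V V ℝ) (h0 : ∀ x y, 0 ≤ A x y) (h1 : ∀ x y, A x y ≤ 1)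
    (L : ℝ) (hL0 : 0 ≤ L) (hL : ∀ x, ∑ y, A x y ≤ L) (r : ℕ) :
    ∀ x y, (A ^ (r + 1)) x y ≤ L ^ r := by
  intro x y
  rw [pow_succ, Matrix.mul_apply]
  calc ∑ z, (A ^ r) x z * A z y ≤ ∑ z, (A ^ r) x z * 1 :=
        sum_le_sum fun z _ => mul_le_mul_of_nonneg_left (h1 z y) (pow_nonneg' A h0 r x z)
    _ = ∑ z, (A ^ r) x z := by simp
    _ ≤ L ^ r := pow_row A h0 L hL0 hL r x

theorem trace_cs (A : Matrix V V ℝ) (hA : A.transpose = A) (h0 : ∀ x y, 0 ≤ A x y)
    (h1 : ∀ x y, A x y ≤ 1) (L : ℝ) (hL0 : 0 ≤ L) (hL : ∀ x, ∑ y, A x y ≤ L) (r : ℕ) :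
    (∑ x, ∑ y, (A ^ (r + 2)) x y * A x y) ^ 2 ≤
      (∑ x, ∑ y, (A ^ 2) x y ^ 2) * (Fintype.card V * L ^ (2 * r + 1)) := by
  have hsymm : ∀ (s : ℕ) x y, (A ^ s) x y = (A ^ s) y x := by
    intro s x y
    have h2 : (A ^ s).transpose = A ^ s := by rw [Matrix.transpose_pow, hA]
    calc (A ^ s) x y = (A ^ s).transpose x y := by rw [h2]
      _ = (A ^ s) y x := rfl
  have h2 : ∑ x, ∑ y, (A ^ (r + 2)) x y * A x y =
      ∑ p : V × V, (A ^ 2) p.1 p.2 * (A ^ (r + 1)) p.1 p.2 := by
    have h3 : ∑ x, ∑ y, (A ^ (r + 2)) x y * A x y = (A ^ (r + 3)).trace := by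
      rw [Matrix.trace]
      apply sum_congr rfl
      intro x _
      rw [Matrix.diag_apply, pow_succ A (r + 2), Matrix.mul_apply]
      apply sum_congr rfl
      intro y _
      have := hsymm 1 x y
      rw [pow_one] at this
      rw [this]
    have h4 : (A ^ (r + 3)).trace = ∑ x, ∑ y, (A ^ 2) x y * (A ^ (r + 1)) x y := by
      rw [Matrix.trace]
      apply sum_congr rfl
      intro x _
      rw [Matrix.diag_apply, show r + 3 = 2 + (r + 1) by ring, pow_add, Matrix.mul_apply]
      apply sum_congr rfl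
      intro y _
      rw [hsymm (r + 1) y x]
    rw [h3, h4, ← Finset.univ_product_univ, Finset.sum_product]
  rw [h2]
  refine (sum_mul_sq_le_sq_mul_sq _ _ _).trans ?_
  have h5 : ∑ p : V × V, (A ^ 2) p.1 p.2 ^ 2 = ∑ x, ∑ y, (A ^ 2) x y ^ 2 := by
    rw [← Finset.univ_product_univ, Finset.sum_product]
  have h6 : ∑ p : V × V, (A ^ (r + 1)) p.1 p.2 ^ 2 ≤ Fintype.card V * L ^ (2 * r + 1) := by
    rw [← Finset.univ_product_univ, Finset.sum_product]
    calc ∑ x, ∑ y, (A ^ (r + 1)) x y ^ 2 ≤ ∑ x, ∑ y, L ^ r * (A ^ (r + 1)) x y := by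
          apply sum_le_sum
          intro x _
          apply sum_le_sum
          intro y _
          rw [sq]
          exact mul_le_mul_of_nonneg_right (pow_entry A h0 h1 L hL0 hL r x y)
            (pow_nonneg' A h0 _ x y)
      _ ≤ ∑ x : V, L ^ r * L ^ (r + 1) := by
          apply sum_le_sum
          intro x _
          rw [← mul_sum]
          exact mul_le_mul_of_nonneg_left (pow_row A h0 L hL0 hL (r + 1) x) (by positivity)
      _ = Fintype.card V * L ^ (2 * r + 1) := by
          rw [sum_const, card_univ, nsmul_eq_mul]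
          ring
  rw [h5]
  exact mul_le_mul_of_nonneg_left h6 (sum_nonneg fun x _ => sum_nonneg fun y _ => sq_nonneg _)

end mat

theorem emb_of_map {m : ℕ} {V : Type} (G : SimpleGraph V) (T : SimpleGraph (Fin (m + 1)))
    (par : ℕ → ℕ) (f : Fin (m + 1) → ℕ) (hf : Function.Injective f) (hfn : ∀ v, f v < m + 1)
    (hpar : ∀ i, 1 ≤ i → par i < i) (hadj : ∀ v w, f v < f w → (T.Adj v w ↔ par (f w) = f v))
    (w : ℕ → V) (hw1 : ∀ i j, i < j → j ≤ m → Walk.TA par i j → G.Adj (w i) (w j))
    (hw2 : ∀ i j, i < j → j ≤ m → ¬ Walk.TA par i j → w i ≠ w j ∧ ¬ G.Adj (w i) (w j)) :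
    Nonempty (T ↪g G) := by
  refine ⟨⟨⟨fun v => w (f v), ?_⟩, ?_⟩⟩
  · intro x y hxy
    by_contra hne
    have key : ∀ x y, f x < f y → w (f x) ≠ w (f y) := by
      intro x y h
      by_cases hTA : Walk.TA par (f x) (f y)
      · exact (hw1 _ _ h (by have := hfn y; omega) hTA).ne
      · exact (hw2 _ _ h (by have := hfn y; omega) hTA).1
    rcases lt_trichotomy (f x) (f y) with h | h | h
    · exact key x y h hxy
    · exact hne (hf h)
    · exact key y x h hxy.symm
  · intro x y
    show G.Adj (w (f x)) (w (f y)) ↔ T.Adj x y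
    have key : ∀ x y, f x < f y → (G.Adj (w (f x)) (w (f y)) ↔ T.Adj x y) := by
      intro x y h
      have hTA : Walk.TA par (f x) (f y) ↔ T.Adj x y := by
        rw [hadj x y h]
        unfold Walk.TA
        constructor
        · rintro (⟨h1, h2⟩ | ⟨-, h2⟩)
          · have := hpar (f x) h1
            omega
          · exact h2
        · intro h2
          exact Or.inr ⟨by omega, h2⟩
      rw [← hTA]
      constructor
      · intro h1
        by_contra h2
        exact (hw2 _ _ h (by have := hfn y; omega) h2).2 h1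
      · intro h1
        exact hw1 _ _ h (by have := hfn y; omega) h1
    rcases lt_trichotomy (f x) (f y) with h | h | h
    · exact key x y h
    · rw [hf h]
      simp
    · rw [G.adj_comm, T.adj_comm]
      exact key y x h

open Classical in
/-- adjacency matrix -/
noncomputable def am {V : Type} (G : SimpleGraph V) : Matrix V V ℝ :=
  fun x y => if G.Adj x y then 1 else 0

theorem am_sq {V : Type} [Fintype V] [DecidableEq V] (G : SimpleGraph V) (x y : V) :
    (am G ^ 2) x y = (ni G (ni G univ x) y).card := by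
  classical
  rw [pow_two, Matrix.mul_apply]
  unfold am ni
  simp only [card_filter, sum_filter]
  push_cast
  apply sum_congr rfl
  intro z _
  simp only [G.adj_comm z y]
  split_ifs <;> simp_all

/-- Many closed walks of length four. -/
theorem four {m : ℕ} (F : SimpleGraph (Fin m)) (hF : F.IsAcyclic) (K : ℝ) (hK : 1 ≤ K) :
    ∃ c : ℝ, 0 < c ∧ ∀ (V : Type) [Fintype V] (G : SimpleGraph V),
      IsEmpty (F ↪g G) → ∀ (d : ℝ), 0 ≤ d → (∀ v, d ≤ ((ni G univ v).card : ℝ)) →
      (∀ v, ((ni G univ v).card : ℝ) ≤ K * d) →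
      c * Fintype.card V * d ^ 3 ≤
        ∑ x, ∑ y, ((ni G (ni G univ x) y).card : ℝ) ^ 2 := by
  classical
  obtain ⟨T, hT, ⟨e⟩⟩ := Pool.Agent.H367R3.forest_in_tree F hF
  obtain ⟨par, f, hf, hfn, hpar, hadj⟩ := tree_order m (Fin (m + 1)) T hT (by simp)
  obtain ⟨ζ, hζ⟩ : ∃ ζ : ℝ, ζ = 1 / ((m : ℝ) + 1) ^ 2 := ⟨_, rfl⟩
  have hζ0 : 0 < ζ := by rw [hζ]; positivity
  have hK0 : 0 < K := by linarith
  obtain ⟨D₀, hD₀⟩ : ∃ D₀ : ℝ, D₀ = 2 * K ^ (2 * m + 1) / ζ := ⟨_, rfl⟩
  have hD₀0 : 0 < D₀ := by rw [hD₀]; positivity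
  refine ⟨min (ζ ^ 2 / (4 * K ^ (4 * m + 2))) (1 / D₀), lt_min (by positivity) (by positivity), ?_⟩
  intro V _ G hemp d hd0 hlow hup
  have hcard : (0 : ℝ) ≤ Fintype.card V := Nat.cast_nonneg _
  obtain ⟨A, hA⟩ : ∃ A : Matrix V V ℝ, A = am G := ⟨_, rfl⟩
  have hA0 : ∀ x y, 0 ≤ A x y := by
    intro x y
    rw [hA]
    unfold am
    split_ifs
    · exact zero_le_one
    · exact le_rfl
  have hA1 : ∀ x y, A x y ≤ 1 := by
    intro x y
    rw [hA]
    unfold am
    split_ifs
    · exact le_rfl
    · exact zero_le_one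
  have hAT : A.transpose = A := by
    ext x y
    rw [Matrix.transpose_apply, hA]
    unfold am
    by_cases h : G.Adj x y
    · rw [if_pos h, if_pos h.symm]
    · rw [if_neg h, if_neg (fun h' => h h'.symm)]
  have hrow : ∀ x, ∑ y, A x y = ((ni G univ x).card : ℝ) := by
    intro x
    rw [hA]
    unfold am ni
    rw [sum_boole]
  have hrowK : ∀ x, ∑ y, A x y ≤ K * d := fun x => (hrow x).trans_le (hup x)
  have hQ : ∀ x y, ((ni G (ni G univ x) y).card : ℝ) = (A ^ 2) x y := by
    intro x y
    rw [hA, am_sq]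
  simp only [hQ]
  have hn0 : (0 : ℝ) ≤ Fintype.card V := Nat.cast_nonneg _
  have hdiag : ∀ x, (A ^ 2) x x = ((ni G univ x).card : ℝ) := by
    intro x
    rw [← hQ]
    congr 2
    ext z
    rw [mem_ni, mem_ni]
    tauto
  by_cases hd : D₀ ≤ d
  swap
  · push Not at hd
    have h1 : (Fintype.card V : ℝ) * d ^ 2 ≤ ∑ x, ∑ y, (A ^ 2) x y ^ 2 := by
      calc (Fintype.card V : ℝ) * d ^ 2 = ∑ x : V, d ^ 2 := by
            rw [sum_const, card_univ, nsmul_eq_mul]
        _ ≤ ∑ x, ∑ y, (A ^ 2) x y ^ 2 := by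
            apply sum_le_sum
            intro x _
            refine le_trans ?_ (single_le_sum (f := fun y => (A ^ 2) x y ^ 2)
              (fun y _ => sq_nonneg _) (mem_univ x))
            rw [hdiag]
            exact pow_le_pow_left₀ hd0 (hlow x) 2
    calc min (ζ ^ 2 / (4 * K ^ (4 * m + 2))) (1 / D₀) * Fintype.card V * d ^ 3
        ≤ 1 / D₀ * Fintype.card V * d ^ 3 := by
          apply mul_le_mul_of_nonneg_right _ (by positivity)
          exact mul_le_mul_of_nonneg_right (min_le_right _ _) hn0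
      _ = (d / D₀) * (Fintype.card V * d ^ 2) := by ring
      _ ≤ 1 * (Fintype.card V * d ^ 2) := by
          apply mul_le_mul_of_nonneg_right _ (by positivity)
          rw [div_le_one hD₀0]
          exact hd.le
      _ ≤ _ := by rw [one_mul]; exact h1
  have hd1 : 0 < d := lt_of_lt_of_le hD₀0 hd
  by_cases hV : Nonempty V
  swap
  · rw [not_nonempty_iff] at hV
    have : Fintype.card V = 0 := Fintype.card_eq_zero
    rw [this, Nat.cast_zero, mul_zero, zero_mul]
    exact sum_nonneg fun x _ => sum_nonneg fun y _ => sq_nonneg _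
  have hn1 : (0 : ℝ) < Fintype.card V := by exact_mod_cast Fintype.card_pos
  -- the walk
  obtain ⟨c, hc⟩ : ∃ c : V → V → ℝ, c = fun x y => A x y := ⟨_, rfl⟩
  have hDc : ∀ x, Walk.D c x = ((ni G univ x).card : ℝ) := by
    intro x
    unfold Walk.D
    rw [hc]
    exact hrow x
  have hW : Walk.Wt c := by
    constructor
    · intro x y
      rw [hc]
      exact hA0 x y
    · intro x y
      rw [hc]
      have := congrFun (congrFun hAT y) x
      rw [Matrix.transpose_apply] at this
      exact this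
    · intro x
      rw [hDc]
      linarith [hlow x]
  obtain ⟨g, hg⟩ : ∃ g : V → V → ℝ, g = fun x y => (if x = y then 1 else 0) + A x y := ⟨_, rfl⟩
  have hPr : ∀ r x y, Walk.Pr c r x y * d ^ r ≤ (A ^ r) x y := by
    intro r
    induction r with
    | zero =>
      intro x y
      rw [pow_zero, pow_zero, Matrix.one_apply, mul_one]
      exact le_rfl
    | succ r ih =>
      intro x y
      rw [pow_succ A r, Matrix.mul_apply]
      calc Walk.Pr c (r + 1) x y * d ^ (r + 1)
          = ∑ z, (Walk.Pr c r x z * d ^ r) * (Walk.P c z y * d) := by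
            show (∑ z, Walk.Pr c r x z * Walk.P c z y) * d ^ (r + 1) = _
            rw [sum_mul]
            apply sum_congr rfl
            intro z _
            ring
        _ ≤ ∑ z, (A ^ r) x z * A z y := by
            apply sum_le_sum
            intro z _
            have h1 : Walk.P c z y * d ≤ A z y := by
              unfold Walk.P
              rw [div_mul_eq_mul_div, div_le_iff₀ (hW.pos z), hDc, hc]
              exact mul_le_mul_of_nonneg_left (hlow z) (hA0 z y)
            have h2 : 0 ≤ Walk.P c z y * d := mul_nonneg (Walk.P_nonneg hW z y) hd0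
            exact mul_le_mul (ih x z) h1 h2 (pow_nonneg' A hA0 r x z)
  -- some walk closes up
  obtain ⟨r, hr2, hrm, hr⟩ : ∃ r, 2 ≤ r ∧ r ≤ 2 * m ∧
      ζ * ∑ a, Walk.D c a < ∑ a, ∑ b, Walk.D c a * Walk.Pr c r a b * g a b := by
    by_contra hcon
    push Not at hcon
    obtain ⟨w, hw1, hw2⟩ := Walk.core' hW hV par hpar m G.Adj (by
        intro x y hxy
        by_contra hn
        apply hxy
        rw [hc, hA]
        unfold am
        simp only
        rw [if_neg hn]) ζ hζ0.le (by
        rw [hζ, one_div, inv_mul_cancel₀ (by positivity)]) g (by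
        intro x y
        rw [hg]
        simp only
        have := hA0 x y
        split_ifs <;> linarith) (by
        intro x y hxy
        rw [hg]
        simp only
        rcases hxy with rfl | hxy
        · rw [if_pos rfl, hA]
          unfold am
          rw [if_neg (G.loopless.irrefl x), add_zero]
        · rw [if_neg hxy.ne, hA]
          unfold am
          rw [if_pos hxy, zero_add]) hcon
    obtain ⟨t⟩ := emb_of_map G T par f hf hfn hpar hadj w hw1 hw2
    exact hemp.false (e.trans t)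
  obtain ⟨s, rfl⟩ : ∃ s, r = s + 2 := ⟨r - 2, by omega⟩
  obtain ⟨S, hS⟩ : ∃ S : ℝ, S = ∑ a, ∑ b, (A ^ (s + 2)) a b * A a b := ⟨_, rfl⟩
  have hKd : 0 ≤ K * d := by positivity
  have hS0 : 0 ≤ S := by
    rw [hS]
    exact sum_nonneg fun a _ => sum_nonneg fun b _ =>
      mul_nonneg (pow_nonneg' A hA0 _ a b) (hA0 a b)
  have hdiagr : ∑ a, (A ^ (s + 2)) a a ≤ Fintype.card V * (K * d) ^ (s + 1) := by
    calc ∑ a, (A ^ (s + 2)) a a ≤ ∑ a : V, (K * d) ^ (s + 1) :=
          sum_le_sum fun a _ => pow_entry A hA0 hA1 (K * d) hKd hrowK (s + 1) a a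
      _ = Fintype.card V * (K * d) ^ (s + 1) := by
          rw [sum_const, card_univ, nsmul_eq_mul]
  have hmain : ζ * (Fintype.card V * d) * d ^ (s + 2) <
      K * d * (Fintype.card V * (K * d) ^ (s + 1) + S) := by
    have h1 : (Fintype.card V : ℝ) * d ≤ ∑ a, Walk.D c a := by
      calc (Fintype.card V : ℝ) * d = ∑ a : V, d := by
            rw [sum_const, card_univ, nsmul_eq_mul]
        _ ≤ ∑ a, Walk.D c a := sum_le_sum fun a _ => by
            rw [hDc]
            exact hlow a
    have h2 : ζ * (Fintype.card V * d) <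
        ∑ a, ∑ b, Walk.D c a * Walk.Pr c (s + 2) a b * g a b :=
      (mul_le_mul_of_nonneg_left h1 hζ0.le).trans_lt hr
    have hgn : ∀ a b, 0 ≤ g a b := by
      intro a b
      rw [hg]
      simp only
      have := hA0 a b
      split_ifs <;> linarith
    have h3 : (∑ a, ∑ b, Walk.D c a * Walk.Pr c (s + 2) a b * g a b) * d ^ (s + 2) ≤
        ∑ a, ∑ b, (K * d) * ((A ^ (s + 2)) a b * g a b) := by
      rw [sum_mul]
      apply sum_le_sum
      intro a _
      rw [sum_mul]
      apply sum_le_sum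
      intro b _
      calc Walk.D c a * Walk.Pr c (s + 2) a b * g a b * d ^ (s + 2)
          = Walk.D c a * (Walk.Pr c (s + 2) a b * d ^ (s + 2)) * g a b := by ring
        _ ≤ (K * d) * (A ^ (s + 2)) a b * g a b := by
            apply mul_le_mul_of_nonneg_right _ (hgn a b)
            apply mul_le_mul _ (hPr (s + 2) a b) _ hKd
            · rw [hDc]
              exact hup a
            · exact mul_nonneg (Walk.Pr_nonneg hW _ a b) (by positivity)
        _ = (K * d) * ((A ^ (s + 2)) a b * g a b) := by ring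
    have h4 : ∑ a, ∑ b, (K * d) * ((A ^ (s + 2)) a b * g a b) =
        K * d * (∑ a, (A ^ (s + 2)) a a + S) := by
      have h5 : ∀ a, ∑ b, (K * d) * ((A ^ (s + 2)) a b * g a b) =
          K * d * ((A ^ (s + 2)) a a + ∑ b, (A ^ (s + 2)) a b * A a b) := by
        intro a
        rw [← mul_sum]
        congr 1
        calc ∑ b, (A ^ (s + 2)) a b * g a b
            = ∑ b, ((A ^ (s + 2)) a b * (if a = b then 1 else 0) +
                (A ^ (s + 2)) a b * A a b) := by
              apply sum_congr rfl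
              intro b _
              rw [hg]
              ring
          _ = (A ^ (s + 2)) a a + ∑ b, (A ^ (s + 2)) a b * A a b := by
              rw [sum_add_distrib]
              congr 1
              simp
      rw [sum_congr rfl (fun a _ => h5 a), ← mul_sum, sum_add_distrib, hS]
    have h6 : ζ * (Fintype.card V * d) * d ^ (s + 2) <
        (∑ a, ∑ b, Walk.D c a * Walk.Pr c (s + 2) a b * g a b) * d ^ (s + 2) :=
      mul_lt_mul_of_pos_right h2 (by positivity)
    refine (h6.trans_le (h3.trans_eq h4)).trans_le ?_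
    apply mul_le_mul_of_nonneg_left _ hKd
    linarith
  have hSlow : Fintype.card V * d ^ (s + 2) * (ζ / (2 * K)) ≤ S := by
    have h1 : K ^ (s + 1) ≤ ζ * d / (2 * K) := by
      rw [le_div_iff₀ (by positivity)]
      have h2 : K ^ (s + 1) * (2 * K) = 2 * K ^ (s + 2) := by ring
      rw [h2]
      have h3 : K ^ (s + 2) ≤ K ^ (2 * m + 1) := pow_le_pow_right₀ hK (by omega)
      have h4 : 2 * K ^ (2 * m + 1) ≤ d * ζ := by
        rw [hD₀, div_le_iff₀ hζ0] at hd
        exact hd
      linarith
    have h2 : Fintype.card V * (K * d) ^ (s + 1) ≤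
        Fintype.card V * d ^ (s + 2) * (ζ / (2 * K)) := by
      calc Fintype.card V * (K * d) ^ (s + 1)
          = Fintype.card V * d ^ (s + 1) * K ^ (s + 1) := by rw [mul_pow]; ring
        _ ≤ Fintype.card V * d ^ (s + 1) * (ζ * d / (2 * K)) :=
            mul_le_mul_of_nonneg_left h1 (by positivity)
        _ = Fintype.card V * d ^ (s + 2) * (ζ / (2 * K)) := by ring
    have h3 : K * d * (Fintype.card V * d ^ (s + 2) * (ζ / K)) =
        ζ * (Fintype.card V * d) * d ^ (s + 2) := by
      field_simp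
    rw [← h3] at hmain
    have h4 := lt_of_mul_lt_mul_left hmain hKd
    have h5 : Fintype.card V * d ^ (s + 2) * (ζ / K) =
        2 * (Fintype.card V * d ^ (s + 2) * (ζ / (2 * K))) := by
      field_simp
    linarith
  obtain ⟨Q, hQd⟩ : ∃ Q : ℝ, Q = ∑ x, ∑ y, (A ^ 2) x y ^ 2 := ⟨_, rfl⟩
  have hcs := trace_cs A hAT hA0 hA1 (K * d) hKd hrowK s
  rw [← hS, ← hQd] at hcs
  rw [← hQd]
  have h1 : (Fintype.card V * d ^ (s + 2) * (ζ / (2 * K))) ^ 2 ≤
      Q * (Fintype.card V * (K * d) ^ (2 * s + 1)) :=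
    (pow_le_pow_left₀ (by positivity) hSlow 2).trans hcs
  have h2 : (Fintype.card V * d ^ (s + 2) * (ζ / (2 * K))) ^ 2 =
      (ζ ^ 2 / (4 * K ^ (2 * s + 3)) * Fintype.card V * d ^ 3) *
        (Fintype.card V * (K * d) ^ (2 * s + 1)) := by
    rw [mul_pow K d]
    field_simp
    ring
  rw [h2] at h1
  have h3 := le_of_mul_le_mul_right h1 (by positivity)
  refine le_trans ?_ h3
  apply mul_le_mul_of_nonneg_right _ (by positivity)
  apply mul_le_mul_of_nonneg_right _ hcard
  refine (min_le_left _ _).trans ?_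
  apply div_le_div_of_nonneg_left (by positivity) (by positivity)
  apply mul_le_mul_of_nonneg_left _ (by norm_num)
  exact pow_le_pow_right₀ hK (by omega)

end Pool.Agent.K4H78.TW
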