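import Pool.Agent.K4H78.TW.Four

/-!
# Large eigenvalues of nearly regular graphs without an induced forest
-/

set_option autoImplicit false

open Finset

namespace Pool.Agent.K4H78.TW

section spec

variable {V : Type} [Fintype V] [DecidableEq V]

theorem trace_pow' (A : Matrix V V ℝ) (hA : A.IsHermitian) (n : ℕ) :
    (A ^ n).trace = ∑ i, hA.eigenvalues i ^ n := by
  obtain ⟨U, hU⟩ : ∃ U, U = hA.eigenvectorUnitary := ⟨_, rfl⟩
  have h1 : A ^ n = Unitary.conjStarAlgAut ℝ _ U
      (Matrix.diagonal (fun i => hA.eigenvalues i ^ n)) := by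
    have h2 := hA.spectral_theorem
    rw [← hU] at h2
    calc A ^ n = (Unitary.conjStarAlgAut ℝ _ U
          (Matrix.diagonal (RCLike.ofReal ∘ hA.eigenvalues))) ^ n := by rw [← h2]
      _ = Unitary.conjStarAlgAut ℝ _ U
          ((Matrix.diagonal (RCLike.ofReal ∘ hA.eigenvalues)) ^ n) := by rw [map_pow]
      _ = _ := by
          rw [Matrix.diagonal_pow]
          rfl
  rw [h1, Unitary.conjStarAlgAut_apply, Matrix.trace_mul_comm, ← mul_assoc]
  have h3 : (star (U : Matrix V V ℝ)) * (U : Matrix V V ℝ) = 1 := by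
    exact Unitary.coe_star_mul_self U
  rw [h3, one_mul, Matrix.trace_diagonal]

theorem eig_le (A : Matrix V V ℝ) (hA : A.IsHermitian) (h0 : ∀ x y, 0 ≤ A x y) (L : ℝ)
    (hL : ∀ x, ∑ y, A x y ≤ L) (i : V) : |hA.eigenvalues i| ≤ L := by
  obtain ⟨v, hv⟩ : ∃ v : V → ℝ, v = ⇑(hA.eigenvectorBasis i) := ⟨_, rfl⟩
  have h1 : A.mulVec v = hA.eigenvalues i • v := by
    rw [hv]
    exact hA.mulVec_eigenvectorBasis i
  have hne : ∃ x, v x ≠ 0 := by
    by_contra hcon
    push Not at hcon
    have h2 : hA.eigenvectorBasis i = 0 := by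
      ext x
      have := hcon x
      rw [hv] at this
      exact this
    have h3 := hA.eigenvectorBasis.orthonormal.1 i
    rw [h2, norm_zero] at h3
    exact zero_ne_one h3
  obtain ⟨x₀, hx₀⟩ := hne
  obtain ⟨x, -, hx⟩ := Finset.exists_max_image univ (fun x => |v x|) ⟨x₀, mem_univ x₀⟩
  have hpos : 0 < |v x| := lt_of_lt_of_le (abs_pos.2 hx₀) (hx x₀ (mem_univ _))
  have h2 : ∑ y, A x y * v y = hA.eigenvalues i * v x := by
    have := congrFun h1 x
    rw [Pi.smul_apply, smul_eq_mul] at this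
    rw [← this]
    rfl
  have h3 : |hA.eigenvalues i| * |v x| ≤ L * |v x| := by
    rw [← abs_mul, ← h2]
    calc |∑ y, A x y * v y| ≤ ∑ y, |A x y * v y| := abs_sum_le_sum_abs _ _
      _ ≤ ∑ y, A x y * |v x| := by
          apply sum_le_sum
          intro y _
          rw [abs_mul, abs_of_nonneg (h0 x y)]
          exact mul_le_mul_of_nonneg_left (hx y (mem_univ _)) (h0 x y)
      _ = (∑ y, A x y) * |v x| := by rw [sum_mul]
      _ ≤ L * |v x| := mul_le_mul_of_nonneg_right (hL x) hpos.le
  exact le_of_mul_le_mul_right h3 hpos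

end spec

theorem am_herm {V : Type} (G : SimpleGraph V) : (am G).IsHermitian := by
  classical
  ext x y
  rw [Matrix.conjTranspose_apply, star_trivial]
  unfold am
  by_cases h : G.Adj x y
  · rw [if_pos h, if_pos h.symm]
  · rw [if_neg h, if_neg (fun h' => h h'.symm)]

/-- Many large eigenvalues. -/
theorem large_eigenvalues {m : ℕ} (F : SimpleGraph (Fin m)) (hF : F.IsAcyclic) (K : ℝ)
    (hK : 1 ≤ K) :
    ∃ η : ℝ, 0 < η ∧ ∀ (V : Type) [Fintype V] [DecidableEq V] (G : SimpleGraph V),
      IsEmpty (F ↪g G) → ∀ (d : ℝ), 1 ≤ d → (∀ v, d ≤ ((ni G univ v).card : ℝ)) →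
      (∀ v, ((ni G univ v).card : ℝ) ≤ K * d) →
      η * Fintype.card V ≤
        d * ((univ.filter fun i => η * d ≤ |(am_herm G).eigenvalues i|).card : ℝ) := by
  classical
  obtain ⟨c, hc, h⟩ := four F hF K hK
  have hK0 : 0 < K := by linarith
  obtain ⟨η, hη⟩ : ∃ η : ℝ, η = min (min (Real.sqrt (c / (2 * K))) (c / (2 * K ^ 4))) 1 :=
    ⟨_, rfl⟩
  have hη0 : 0 < η := by
    rw [hη]
    exact lt_min (lt_min (Real.sqrt_pos.2 (by positivity)) (by positivity)) one_pos
  have hη1 : η ^ 2 ≤ c / (2 * K) := by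
    have h1 : η ≤ Real.sqrt (c / (2 * K)) := by
      rw [hη]; exact (min_le_left _ _).trans (min_le_left _ _)
    calc η ^ 2 ≤ (Real.sqrt (c / (2 * K))) ^ 2 := pow_le_pow_left₀ hη0.le h1 2
      _ = c / (2 * K) := Real.sq_sqrt (by positivity)
  have hη2 : η ≤ c / (2 * K ^ 4) := by
    rw [hη]; exact (min_le_left _ _).trans (min_le_right _ _)
  refine ⟨η, hη0, ?_⟩
  intro V _ _ G hemp d hd hlow hup
  have hd0 : 0 < d := by linarith
  have h4 := h V G hemp d hd0.le hlow hup
  obtain ⟨A, hA⟩ : ∃ A : Matrix V V ℝ, A = am G := ⟨_, rfl⟩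
  have hn0 : (0 : ℝ) ≤ Fintype.card V := Nat.cast_nonneg _
  have hA0 : ∀ x y, 0 ≤ am G x y := by
    intro x y
    unfold am
    split_ifs
    · exact zero_le_one
    · exact le_rfl
  have hrow : ∀ x, ∑ y, am G x y = ((ni G univ x).card : ℝ) := by
    intro x
    unfold am ni
    rw [sum_boole]
  have hsymm2 : ∀ x y, (am G ^ 2) x y = (am G ^ 2) y x := by
    intro x y
    have h2 : (am G ^ 2).IsHermitian := (am_herm G).pow 2
    have h3 := h2.apply x y
    rw [star_trivial] at h3
    exact h3.symm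
  have htr4 : ∑ i, (am_herm G).eigenvalues i ^ 4 =
      ∑ x, ∑ y, ((ni G (ni G univ x) y).card : ℝ) ^ 2 := by
    rw [← trace_pow', Matrix.trace]
    apply sum_congr rfl
    intro x _
    rw [Matrix.diag_apply, show (4 : ℕ) = 2 + 2 by norm_num, pow_add, Matrix.mul_apply]
    apply sum_congr rfl
    intro y _
    rw [hsymm2 y x, am_sq, sq]
  have htr2 : ∑ i, (am_herm G).eigenvalues i ^ 2 ≤ Fintype.card V * (K * d) := by
    rw [← trace_pow', Matrix.trace]
    calc ∑ x, (am G ^ 2).diag x ≤ ∑ x : V, K * d := by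
          apply sum_le_sum
          intro x _
          rw [Matrix.diag_apply, am_sq]
          refine le_trans ?_ (hup x)
          have : (ni G (ni G univ x) x).card ≤ (ni G univ x).card := by
            apply card_le_card
            intro z hz
            exact ((mem_ni _ _ _ _).1 hz).1
          exact_mod_cast this
      _ = Fintype.card V * (K * d) := by rw [sum_const, card_univ, nsmul_eq_mul]
  obtain ⟨E, hE⟩ : ∃ E : Finset V, E = univ.filter fun i =>
      η * d ≤ |(am_herm G).eigenvalues i| := ⟨_, rfl⟩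
  have hsplit : ∑ i, (am_herm G).eigenvalues i ^ 4 ≤
      E.card * (K * d) ^ 4 + c / 2 * Fintype.card V * d ^ 3 := by
    rw [← sum_filter_add_sum_filter_not univ (fun i => η * d ≤ |(am_herm G).eigenvalues i|),
      ← hE]
    apply add_le_add
    · rw [← nsmul_eq_mul, ← sum_const]
      apply sum_le_sum
      intro i _
      have h5 := eig_le (am G) (am_herm G) hA0 (K * d) (fun x => (hrow x).trans_le (hup x)) i
      calc (am_herm G).eigenvalues i ^ 4 = |(am_herm G).eigenvalues i| ^ 4 := by
            rw [← abs_pow, abs_of_nonneg (by positivity)]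
        _ ≤ (K * d) ^ 4 := pow_le_pow_left₀ (abs_nonneg _) h5 4
    · calc ∑ i ∈ univ.filter (fun i => ¬ η * d ≤ |(am_herm G).eigenvalues i|),
            (am_herm G).eigenvalues i ^ 4
          ≤ ∑ i ∈ univ.filter (fun i => ¬ η * d ≤ |(am_herm G).eigenvalues i|),
            (η * d) ^ 2 * (am_herm G).eigenvalues i ^ 2 := by
            apply sum_le_sum
            intro i hi
            have h5 := (mem_filter.1 hi).2
            push Not at h5
            have h6 : (am_herm G).eigenvalues i ^ 2 ≤ (η * d) ^ 2 := by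
              rw [← sq_abs]
              exact pow_le_pow_left₀ (abs_nonneg _) h5.le 2
            calc (am_herm G).eigenvalues i ^ 4 =
                  (am_herm G).eigenvalues i ^ 2 * (am_herm G).eigenvalues i ^ 2 := by ring
              _ ≤ (η * d) ^ 2 * (am_herm G).eigenvalues i ^ 2 :=
                  mul_le_mul_of_nonneg_right h6 (sq_nonneg _)
        _ ≤ ∑ i, (η * d) ^ 2 * (am_herm G).eigenvalues i ^ 2 :=
            sum_le_sum_of_subset_of_nonneg (filter_subset _ _) fun i _ _ => by positivity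
        _ = (η * d) ^ 2 * ∑ i, (am_herm G).eigenvalues i ^ 2 := by rw [mul_sum]
        _ ≤ (η * d) ^ 2 * (Fintype.card V * (K * d)) :=
            mul_le_mul_of_nonneg_left htr2 (by positivity)
        _ = η ^ 2 * (K * Fintype.card V * d ^ 3) := by ring
        _ ≤ c / (2 * K) * (K * Fintype.card V * d ^ 3) :=
            mul_le_mul_of_nonneg_right hη1 (by positivity)
        _ = c / 2 * Fintype.card V * d ^ 3 := by field_simp
  rw [htr4] at hsplit
  have h5 : c / 2 * Fintype.card V * d ^ 3 ≤ E.card * (K * d) ^ 4 := by linarith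
  have h6 : c / (2 * K ^ 4) * Fintype.card V ≤ d * E.card := by
    have h7 : (c / (2 * K ^ 4) * Fintype.card V) * (K ^ 4 * d ^ 3) ≤
        (d * E.card) * (K ^ 4 * d ^ 3) := by
      calc (c / (2 * K ^ 4) * Fintype.card V) * (K ^ 4 * d ^ 3)
          = c / 2 * Fintype.card V * d ^ 3 := by field_simp
        _ ≤ E.card * (K * d) ^ 4 := h5
        _ = (d * E.card) * (K ^ 4 * d ^ 3) := by ring
    exact le_of_mul_le_mul_right h7 (by positivity)
  have h8 := (mul_le_mul_of_nonneg_right hη2 hn0).trans h6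
  rw [hE] at h8
  convert h8

end Pool.Agent.K4H78.TW
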