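import Pool.Agent.K4H78.TW.Base

/-!
# Near-twins: adding one vertex to the tree
-/

set_option autoImplicit false

open Finset

namespace Pool.Agent.K4H78.TW

open Pool.Agent.W259.GS (Sh)

/-- a partial copy of the tree with reserved sets of neighbours -/
structure St {V : Type} (G : SimpleGraph V) (par : ℕ → ℕ) (t : ℕ) (w : ℕ → V)
    (Q : ℕ → Finset V) (ζ a : ℝ) : Prop where
  inj : ∀ i < t, ∀ j < t, w i = w j → i = j
  adj : ∀ j < t, ∀ i < j, (G.Adj (w i) (w j) ↔ par j = i)
  sub : ∀ j < t, ∀ x ∈ Q j, G.Adj (w j) x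
  non : ∀ j < t, ∀ l < t, l ≠ j → ∀ x ∈ Q j, ¬ G.Adj (w l) x
  size : ∀ j < t, a ≤ (Q j).card
  sparse : ∀ j < t, ∀ l < t, j ≠ l → (en G (Q j) (Q l) : ℝ) ≤ ζ * (Q j).card * (Q l).card
  near : ∀ j < t, ∃ p : G.Walk (w 0) (w j), p.length ≤ j

open Classical in
/-- near-twins -/
noncomputable def tw {V : Type} [Fintype V] (G : SimpleGraph V) (e : ℝ) (v : V) : Finset V :=
  univ.filter fun u => ((df G univ u v).card : ℝ) ≤ e

theorem mem_tw {V : Type} [Fintype V] (G : SimpleGraph V) (e : ℝ) (v u : V) :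
    u ∈ tw G e v ↔ ((df G univ u v).card : ℝ) ≤ e := by
  simp only [tw, mem_filter, mem_univ, true_and]

theorem goodX {V : Type} (G : SimpleGraph V) (k t : ℕ) (ht : 1 ≤ t)
    (ζ a : ℝ) (ha : 0 < a) (hζ : 0 < ζ) (par : ℕ → ℕ) (w : ℕ → V) (Q : ℕ → Finset V)
    (h : St G par t w Q ζ a) (j : ℕ) (hj : j < t) (hfree : G.CliqueFree (k + 1)) :
    ∃ X ⊆ Q j, 3 * ((Q j).card : ℝ) ≤ 8 * X.card ∧ ∀ x ∈ X,
      (Q j).card ≤ 2 * k * (nn G (Q j) x).card ∧
      ∀ l < t, l ≠ j → ((ni G (Q l) x).card : ℝ) ≤ 8 * t * ζ * (Q l).card := by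
  classical
  obtain ⟨A, hAQ, hAc, hA⟩ := half_nonadj G k (Q j) (w j) (h.sub j hj) hfree
  have ht0 : (0 : ℝ) < t := by exact_mod_cast ht
  obtain ⟨B, hB⟩ : ∃ B : ℕ → Finset V, B = fun l => (Q j).filter fun x =>
      l ≠ j ∧ 8 * t * ζ * (Q l).card < ((ni G (Q l) x).card : ℝ) := ⟨_, rfl⟩
  have hBc : ∀ l < t, 8 * t * ((B l).card : ℝ) ≤ (Q j).card := by
    intro l hl
    by_cases hlj : l = j
    · have : B l = ∅ := by
        rw [hB]
        apply filter_eq_empty_iff.2
        intro x _ hx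
        exact hx.1 hlj
      rw [this]
      simp
    · have h1 : (∑ x ∈ B l, 8 * t * ζ * ((Q l).card : ℝ)) ≤ (en G (Q j) (Q l) : ℝ) := by
        unfold en
        push_cast
        refine (sum_le_sum (f := fun _ => 8 * t * ζ * ((Q l).card : ℝ))
          (g := fun x => ((ni G (Q l) x).card : ℝ)) ?_).trans ?_
        · intro x hx
          rw [hB] at hx
          exact (mem_filter.1 hx).2.2.le
        · apply sum_le_sum_of_subset_of_nonneg
          · rw [hB]; exact filter_subset _ _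
          · intro _ _ _; positivity
      rw [sum_const, nsmul_eq_mul] at h1
      have h2 := h.sparse j hj l hl (fun h => hlj h.symm)
      have h3 : (0 : ℝ) < (Q l).card := lt_of_lt_of_le ha (h.size l hl)
      have h4 : (8 * t * ((B l).card : ℝ)) * (ζ * (Q l).card) ≤ (Q j).card * (ζ * (Q l).card) := by
        calc (8 * t * ((B l).card : ℝ)) * (ζ * (Q l).card)
            = (B l).card * (8 * t * ζ * (Q l).card) := by ring
          _ ≤ en G (Q j) (Q l) := h1
          _ ≤ ζ * (Q j).card * (Q l).card := h2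
          _ = (Q j).card * (ζ * (Q l).card) := by ring
      exact le_of_mul_le_mul_right h4 (by positivity)
  obtain ⟨X, hX⟩ : ∃ X : Finset V, X = A.filter fun x => ∀ l < t, l ≠ j →
      ((ni G (Q l) x).card : ℝ) ≤ 8 * t * ζ * (Q l).card := ⟨_, rfl⟩
  refine ⟨X, ?_, ?_, ?_⟩
  · rw [hX]
    exact (filter_subset _ _).trans hAQ
  · have h1 : A ⊆ X ∪ (range t).biUnion B := by
      intro x hx
      rw [mem_union]
      by_cases hxX : x ∈ X
      · exact Or.inl hxX
      · right
        rw [hX, mem_filter] at hxX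
        push Not at hxX
        obtain ⟨l, hl, hlj, h2⟩ := hxX hx
        rw [mem_biUnion]
        refine ⟨l, mem_range.2 hl, ?_⟩
        rw [hB]
        exact mem_filter.2 ⟨hAQ hx, hlj, h2⟩
    have h2 : (A.card : ℝ) ≤ X.card + ∑ l ∈ range t, ((B l).card : ℝ) := by
      have h3 := (card_le_card h1).trans ((card_union_le _ _).trans
        (Nat.add_le_add_left card_biUnion_le _))
      exact_mod_cast h3
    have h3 : 8 * t * ∑ l ∈ range t, ((B l).card : ℝ) ≤ t * (Q j).card := by
      rw [mul_sum]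
      calc ∑ l ∈ range t, 8 * t * ((B l).card : ℝ) ≤ ∑ l ∈ range t, ((Q j).card : ℝ) :=
            sum_le_sum fun l hl => hBc l (mem_range.1 hl)
        _ = t * (Q j).card := by rw [sum_const, nsmul_eq_mul, card_range]
    have h4 : 8 * ∑ l ∈ range t, ((B l).card : ℝ) ≤ (Q j).card := by
      have h5 : t * (8 * ∑ l ∈ range t, ((B l).card : ℝ)) ≤ t * ((Q j).card : ℝ) := by
        linarith
      exact le_of_mul_le_mul_left h5 ht0
    have h5 : ((Q j).card : ℝ) ≤ 2 * A.card := by exact_mod_cast hAc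
    linarith
  · intro x hx
    rw [hX, mem_filter] at hx
    exact ⟨hA x hx.1, hx.2⟩

theorem df_split {V : Type} [Fintype V] [DecidableEq V] (G : SimpleGraph V) (R : Finset V)
    (x y : V) :
    (df G univ x y).card ≤ (df G R x y).card + ((ni G Rᶜ x).card + (ni G Rᶜ y).card) := by
  refine (card_le_card ?_).trans ((card_union_le _ _).trans
    (Nat.add_le_add_left (card_union_le _ _) _))
  intro z hz
  rw [mem_df] at hz
  rw [mem_union, mem_union, mem_df, mem_ni, mem_ni, mem_compl]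
  tauto

theorem ni_le_of_df {V : Type} (G : SimpleGraph V) (P : Finset V) (x y : V) :
    (ni G (nn G P y) x).card ≤ (df G P x y).card := by
  apply card_le_card
  intro z hz
  rw [mem_ni, mem_nn] at hz
  rw [mem_df]
  tauto

theorem ni_nn_nn {V : Type} (G : SimpleGraph V) (P : Finset V) (x y z : V) :
    (ni G (nn G (nn G P z) y) x).card ≤ (df G (nn G P z) x y).card :=
  ni_le_of_df G _ x y

/-- the new partial copy -/
theorem finish {V : Type} [Fintype V] [DecidableEq V] (G : SimpleGraph V) (k t : ℕ) (hk : 1 ≤ k)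
    (ζ a a' : ℝ) (hζ : 0 < ζ) (par : ℕ → ℕ) (w : ℕ → V)
    (Q : ℕ → Finset V) (h : St G par t w Q ζ a) (hpt : par t < t) (x : V) (hx : x ∈ Q (par t))
    (hxw : ∀ l < t, w l ≠ x) (P : ℕ → Finset V) (hPQ : ∀ l < t, P l ⊆ Q l)
    (hPc : ∀ l < t, (Q l).card ≤ 2 * k * (P l).card)
    (hPx : ∀ l < t, 4 * ((ni G (P l) x).card : ℝ) ≤ (P l).card) (Y : Finset V)
    (hY : ∀ y ∈ Y, G.Adj x y) (hYw : ∀ l < t, ∀ y ∈ Y, ¬ G.Adj (w l) y)
    (hYP : ∀ l < t, ∀ y ∈ Y, 2 * (ni G (P l) y).card ≤ (P l).card)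
    (q : ℕ) (hq : 4 ≤ (64 * k ^ 2 * ζ) * q)
    (hYq : ∀ l < t, ∀ y ∈ Y, ∀ z ∈ Y, q * (df G (nn G (P l) x) y z).card ≤ (nn G (P l) x).card)
    (hYc : a' ≤ Y.card) (ha' : 8 * k * a' ≤ a) (y₀ : V) (hy₀ : y₀ ∈ Y) :
    ∃ (w' : ℕ → V) (Q' : ℕ → Finset V), w' 0 = w 0 ∧
      St G par (t + 1) w' Q' (64 * k ^ 2 * ζ) a' := by
  have hk0 : (0 : ℝ) < k := by exact_mod_cast hk
  have hk1 : (1 : ℝ) ≤ k := by exact_mod_cast hk
  obtain ⟨Z, hZ⟩ : ∃ Z : ℕ → Finset V, Z = fun l => nn G (nn G (P l) x) y₀ := ⟨_, rfl⟩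
  have hZP : ∀ l, Z l ⊆ P l := by
    intro l z hz
    rw [hZ] at hz
    simp only [mem_nn] at hz
    exact hz.1.1
  -- sizes
  have hZc : ∀ l < t, ((P l).card : ℝ) ≤ 4 * (Z l).card := by
    intro l hl
    have h1 := ni_add_nn G (P l) x
    have h2 := ni_add_nn G (nn G (P l) x) y₀
    have h3 : (ni G (nn G (P l) x) y₀).card ≤ (ni G (P l) y₀).card :=
      ni_mono G (fun z hz => ((mem_nn G _ _ _).1 hz).1) y₀
    have h4 := hYP l hl y₀ hy₀
    have h5 := hPx l hl
    have h6 : (Z l).card = (nn G (nn G (P l) x) y₀).card := by rw [hZ]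
    have h7 : ((ni G (P l) x).card : ℝ) + (nn G (P l) x).card = (P l).card := by
      exact_mod_cast h1
    have h8 : ((ni G (nn G (P l) x) y₀).card : ℝ) + (Z l).card = (nn G (P l) x).card := by
      rw [h6]
      exact_mod_cast h2
    have h9 : ((ni G (nn G (P l) x) y₀).card : ℝ) ≤ (ni G (P l) y₀).card := by
      exact_mod_cast h3
    have h10 : 2 * ((ni G (P l) y₀).card : ℝ) ≤ (P l).card := by exact_mod_cast h4
    linarith
  have hQZ : ∀ l < t, ((Q l).card : ℝ) ≤ 8 * k * (Z l).card := by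
    intro l hl
    have h1 : ((Q l).card : ℝ) ≤ 2 * k * (P l).card := by exact_mod_cast hPc l hl
    have h2 := hZc l hl
    nlinarith
  have hZa : ∀ l < t, a' ≤ (Z l).card := by
    intro l hl
    have h1 := h.size l hl
    have h2 := hQZ l hl
    have h3 : 8 * k * a' ≤ 8 * k * ((Z l).card : ℝ) := by linarith
    exact le_of_mul_le_mul_left h3 (by positivity)
  -- sparseness with the new set
  have hYZ : ∀ l < t, (en G Y (Z l) : ℝ) ≤ 64 * k ^ 2 * ζ * Y.card * (Z l).card := by
    intro l hl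
    have h1 : ∀ y ∈ Y, ((ni G (Z l) y).card : ℝ) ≤ 64 * k ^ 2 * ζ * (Z l).card := by
      intro y hy
      have h2 : (ni G (Z l) y).card ≤ (df G (nn G (P l) x) y y₀).card := by
        rw [hZ]
        exact ni_le_of_df G _ y y₀
      have h3 := hYq l hl y hy y₀ hy₀
      have h4 : (nn G (P l) x).card ≤ (P l).card :=
        card_le_card fun z hz => ((mem_nn G _ _ _).1 hz).1
      have h5 : (q : ℝ) * (ni G (Z l) y).card ≤ (P l).card := by
        have h6 : q * (ni G (Z l) y).card ≤ (P l).card :=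
          (Nat.mul_le_mul_left _ h2).trans (h3.trans h4)
        exact_mod_cast h6
      have h6 := hZc l hl
      have h7 : (0 : ℝ) < q := by
        by_contra hcon
        push Not at hcon
        have : (0 : ℝ) ≤ 64 * k ^ 2 * ζ := by positivity
        nlinarith
      have h8 : (0 : ℝ) ≤ (Z l).card := Nat.cast_nonneg _
      have h9 : (q : ℝ) * (ni G (Z l) y).card ≤ q * (64 * k ^ 2 * ζ * (Z l).card) := by
        calc (q : ℝ) * (ni G (Z l) y).card ≤ (P l).card := h5
          _ ≤ 4 * (Z l).card := h6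
          _ ≤ (64 * k ^ 2 * ζ * q) * (Z l).card := mul_le_mul_of_nonneg_right hq h8
          _ = q * (64 * k ^ 2 * ζ * (Z l).card) := by ring
      exact le_of_mul_le_mul_left h9 h7
    unfold en
    push_cast
    calc ∑ y ∈ Y, ((ni G (Z l) y).card : ℝ) ≤ ∑ y ∈ Y, 64 * k ^ 2 * ζ * ((Z l).card : ℝ) :=
          sum_le_sum h1
      _ = 64 * k ^ 2 * ζ * Y.card * (Z l).card := by
          rw [sum_const, nsmul_eq_mul]; ring
  have hZZ : ∀ j < t, ∀ l < t, j ≠ l →
      (en G (Z j) (Z l) : ℝ) ≤ 64 * k ^ 2 * ζ * (Z j).card * (Z l).card := by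
    intro j hj l hl hjl
    have h1 : (en G (Z j) (Z l) : ℝ) ≤ en G (Q j) (Q l) := by
      exact_mod_cast en_mono G ((hZP j).trans (hPQ j hj)) ((hZP l).trans (hPQ l hl))
    have h2 := h.sparse j hj l hl hjl
    have h3 := hQZ j hj
    have h4 := hQZ l hl
    calc (en G (Z j) (Z l) : ℝ) ≤ ζ * (Q j).card * (Q l).card := h1.trans h2
      _ ≤ ζ * (8 * k * (Z j).card) * (8 * k * (Z l).card) := by gcongr
      _ = 64 * k ^ 2 * ζ * (Z j).card * (Z l).card := by ring
  -- the new data
  obtain ⟨w', hw'⟩ : ∃ w' : ℕ → V, w' = fun i => if i = t then x else w i := ⟨_, rfl⟩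
  obtain ⟨Q', hQ'⟩ : ∃ Q' : ℕ → Finset V, Q' = fun i => if i = t then Y else Z i := ⟨_, rfl⟩
  have hwt : w' t = x := by rw [hw']; simp
  have hwl : ∀ l < t, w' l = w l := by
    intro l hl
    rw [hw']
    simp only
    rw [if_neg (by omega)]
  have hQt : Q' t = Y := by rw [hQ']; simp
  have hQl : ∀ l < t, Q' l = Z l := by
    intro l hl
    rw [hQ']
    simp only
    rw [if_neg (by omega)]
  have hadjx : ∀ l < t, (G.Adj (w l) x ↔ par t = l) := by
    intro l hl
    constructor
    · intro h1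
      by_contra h2
      exact h.non (par t) hpt l hl (fun h3 => h2 h3.symm) x hx h1
    · rintro rfl
      exact h.sub _ hpt x hx
  have hcase : ∀ j < t + 1, j < t ∨ j = t := fun j hj => Nat.lt_succ_iff_lt_or_eq.1 hj
  have ht0 : 0 < t := lt_of_le_of_lt (Nat.zero_le _) hpt
  refine ⟨w', Q', hwl 0 ht0, ?_⟩
  constructor
  · intro i hi j hj hij
    rcases hcase i hi with hi | rfl
    · rcases hcase j hj with hj | rfl
      · rw [hwl i hi, hwl j hj] at hij
        exact h.inj i hi j hj hij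
      · rw [hwl i hi, hwt] at hij
        exact absurd hij (hxw i hi)
    · rcases hcase j hj with hj | rfl
      · rw [hwl j hj, hwt] at hij
        exact absurd hij.symm (hxw j hj)
      · rfl
  · intro j hj i hij
    rcases hcase j hj with hj | rfl
    · rw [hwl j hj, hwl i (by omega)]
      exact h.adj j hj i hij
    · rw [hwt, hwl i hij]
      exact hadjx i hij
  · intro j hj z hz
    rcases hcase j hj with hj | rfl
    · rw [hQl j hj] at hz
      rw [hwl j hj]
      exact h.sub j hj z (hPQ j hj (hZP j hz))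
    · rw [hQt] at hz
      rw [hwt]
      exact hY z hz
  · intro j hj l hl hlj z hz
    rcases hcase j hj with hj | rfl
    · rw [hQl j hj] at hz
      rcases hcase l hl with hl | rfl
      · rw [hwl l hl]
        exact h.non j hj l hl hlj z (hPQ j hj (hZP j hz))
      · rw [hwt]
        rw [hZ] at hz
        simp only [mem_nn] at hz
        exact hz.1.2
    · rw [hQt] at hz
      rcases hcase l hl with hl | rfl
      · rw [hwl l hl]
        exact hYw l hl z hz
      · exact absurd rfl hlj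
  · intro j hj
    rcases hcase j hj with hj | rfl
    · rw [hQl j hj]
      exact hZa j hj
    · rw [hQt]
      exact hYc
  · intro j hj l hl hjl
    rcases hcase j hj with hj | rfl
    · rcases hcase l hl with hl | rfl
      · rw [hQl j hj, hQl l hl]
        exact hZZ j hj l hl hjl
      · rw [hQl j hj, hQt, en_comm]
        refine (hYZ j hj).trans (le_of_eq ?_)
        ring
    · rcases hcase l hl with hl | rfl
      · rw [hQl l hl, hQt]
        exact hYZ l hl
      · exact absurd rfl hjl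
  · intro j hj
    rw [hwl 0 ht0]
    rcases hcase j hj with hj | rfl
    · rw [hwl j hj]
      exact h.near j hj
    · rw [hwt]
      obtain ⟨p, hp⟩ := h.near (par j) hpt
      refine ⟨p.concat (h.sub _ hpt x hx), ?_⟩
      rw [SimpleGraph.Walk.length_concat]
      omega

end Pool.Agent.K4H78.TW
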