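import Pool.Agent.K4H78.TW.Step

/-!
# Near-twins: the induction step
-/

set_option autoImplicit false

open Finset

namespace Pool.Agent.K4H78.TW

open Pool.Agent.W259.GS (Sh)

theorem step (N k t : ℕ) (hk : 1 ≤ k) (ht : 1 ≤ t) (K ε α ζ : ℝ) (hK : 1 ≤ K) (hε : 0 < ε)
    (hα : 0 < α) (hζ : 0 < ζ) (hζ1 : ζ * (32 * t) ≤ 1) :
    ∃ α' > 0, ∃ δ > 0, ∃ D > 0, ∀ (V : Type) [Fintype V] (G : SimpleGraph V),
    G.CliqueFree (k + 1) → (∀ X : Finset V, Sh G X Set.univ → X.card < N) →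
    ∀ (d : ℝ), D ≤ d → ∀ (par : ℕ → ℕ) (w : ℕ → V) (Q : ℕ → Finset V), par t < t →
    St G par t w Q ζ (α * d) →
    (∀ v, (∃ p : G.Walk (w 0) v, p.length ≤ t) →
      d ≤ ((ni G univ v).card : ℝ) ∧ ((ni G univ v).card : ℝ) ≤ K * d) →
    (∀ v, (∃ p : G.Walk (w 0) v, p.length ≤ t) → ((tw G (ε * d) v).card : ℝ) < δ * d) →
    ∃ (w' : ℕ → V) (Q' : ℕ → Finset V), w' 0 = w 0 ∧
      St G par (t + 1) w' Q' (64 * k ^ 2 * ζ) (α' * d) := by
  classical
  obtain ⟨C, D₁, hC1, hC⟩ := cluster N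
  obtain ⟨C₂, D₂, hC₂1, hCC⟩ := clusters N
  have hk0 : (0 : ℝ) < k := by exact_mod_cast hk
  have hk1 : (1 : ℝ) ≤ k := by exact_mod_cast hk
  have ht0 : (0 : ℝ) < t := by exact_mod_cast ht
  have hζ' : 0 < 64 * (k : ℝ) ^ 2 * ζ := by positivity
  -- parameters
  obtain ⟨q₁, hq₁⟩ : ∃ q₁ : ℕ, q₁ = 8 * k := ⟨_, rfl⟩
  obtain ⟨q₂, hq₂⟩ : ∃ q₂ : ℕ, q₂ = ⌈6 * t * K / ε⌉₊ := ⟨_, rfl⟩
  obtain ⟨q₃, hq₃⟩ : ∃ q₃ : ℕ, q₃ = ⌈4 / (64 * (k : ℝ) ^ 2 * ζ)⌉₊ := ⟨_, rfl⟩
  have hq₁1 : 1 ≤ q₁ := by omega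
  have hq₂1 : 1 ≤ q₂ := by
    rw [hq₂]
    exact Nat.one_le_ceil_iff.2 (by positivity)
  have hq₃1 : 1 ≤ q₃ := by
    rw [hq₃]
    exact Nat.one_le_ceil_iff.2 (by positivity)
  have hq₂r : 6 * t * K ≤ ε * q₂ := by
    have h1 : 6 * t * K / ε ≤ q₂ := by rw [hq₂]; exact Nat.le_ceil _
    rw [div_le_iff₀ hε] at h1
    linarith
  have hq₃r : 4 ≤ (64 * (k : ℝ) ^ 2 * ζ) * q₃ := by
    have h1 : 4 / (64 * (k : ℝ) ^ 2 * ζ) ≤ q₃ := by rw [hq₃]; exact Nat.le_ceil _
    rw [div_le_iff₀ hζ'] at h1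
    linarith
  obtain ⟨c₁, hc₁⟩ : ∃ c₁ : ℕ, c₁ = C * q₁ ^ D₁ := ⟨_, rfl⟩
  obtain ⟨c₂, hc₂⟩ : ∃ c₂ : ℕ, c₂ = C * q₂ ^ D₁ := ⟨_, rfl⟩
  obtain ⟨c₃, hc₃⟩ : ∃ c₃ : ℕ, c₃ = (C₂ * q₃ ^ D₂) ^ t := ⟨_, rfl⟩
  have hc₁0 : (0 : ℝ) < c₁ := by
    have : 0 < c₁ := by rw [hc₁]; positivity
    exact_mod_cast this
  have hc₂0 : (0 : ℝ) < c₂ := by
    have : 0 < c₂ := by rw [hc₂]; positivity
    exact_mod_cast this
  have hc₃0 : (0 : ℝ) < c₃ := by
    have : 0 < c₃ := by rw [hc₃]; positivity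
    exact_mod_cast this
  refine ⟨min (α / (8 * k)) (ε / (4 * c₃)), by positivity, 3 * α / (16 * c₁ * c₂), by positivity,
    16 * c₁ * (t + 1) / (3 * α), by positivity, ?_⟩
  intro V _ G hfree hsh d hd par w Q hpt h hdeg htw
  have hd0 : 0 < d := lt_of_lt_of_le (by positivity) hd
  have had : 0 < α * d := mul_pos hα hd0
  obtain ⟨j, hj⟩ : ∃ j, j = par t := ⟨_, rfl⟩
  have hjt : j < t := by omega
  obtain ⟨X₁, hX₁Q, hX₁c, hX₁⟩ := goodX G k t ht ζ (α * d) had hζ par w Q h j hjt hfree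
  obtain ⟨X, hXX₁, hXc, hX⟩ := hC V G (Q j) X₁ q₁ hq₁1 hsh
  rw [← hc₁] at hXc
  have hXc' : (X₁.card : ℝ) ≤ c₁ * X.card := by exact_mod_cast hXc
  have hQj0 := h.size j hjt
  have hXlow : 3 * (α * d) ≤ 8 * c₁ * X.card := by
    calc 3 * (α * d) ≤ 3 * (Q j).card := by linarith
      _ ≤ 8 * X₁.card := hX₁c
      _ ≤ 8 * (c₁ * X.card) := by linarith
      _ = 8 * c₁ * X.card := by ring
  have hXne : X.Nonempty := by
    rw [nonempty_iff_ne_empty]
    rintro rfl
    simp at hXlow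
    linarith
  obtain ⟨x₀, hx₀⟩ := hXne
  -- the sets before the new vertex
  obtain ⟨P, hP⟩ : ∃ P : ℕ → Finset V, P = fun l => if l = j then nn G (Q j) x₀ else Q l :=
    ⟨_, rfl⟩
  have hPj : P j = nn G (Q j) x₀ := by rw [hP]; simp
  have hPl : ∀ l, l ≠ j → P l = Q l := by
    intro l hl
    rw [hP]
    simp only
    rw [if_neg hl]
  have hPQ : ∀ l < t, P l ⊆ Q l := by
    intro l _
    by_cases hlj : l = j
    · rw [hlj, hPj]
      exact fun z hz => ((mem_nn G _ _ _).1 hz).1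
    · rw [hPl l hlj]
  have hPc : ∀ l < t, (Q l).card ≤ 2 * k * (P l).card := by
    intro l _
    by_cases hlj : l = j
    · rw [hlj, hPj]
      exact (hX₁ x₀ (hXX₁ hx₀)).1
    · rw [hPl l hlj]
      exact Nat.le_mul_of_pos_left _ (by omega)
  have hP0 : ∀ l < t, 0 < (P l).card := by
    intro l hl
    have h1 := hPc l hl
    have h2 : (0 : ℝ) < (Q l).card := lt_of_lt_of_le had (h.size l hl)
    have h3 : 0 < (Q l).card := by exact_mod_cast h2
    by_contra hcon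
    have h4 : (P l).card = 0 := by omega
    rw [h4] at h1
    omega
  have hPx : ∀ x ∈ X, ∀ l < t, 4 * ((ni G (P l) x).card : ℝ) ≤ (P l).card := by
    intro x hx l hl
    by_cases hlj : l = j
    · rw [hlj, hPj]
      have h1 : (ni G (nn G (Q j) x₀) x).card ≤ (df G (Q j) x x₀).card := ni_le_of_df G _ x x₀
      have h2 := hX x hx x₀ hx₀
      have h3 := (hX₁ x₀ (hXX₁ hx₀)).1
      have h4 : 8 * k * (ni G (nn G (Q j) x₀) x).card ≤ 2 * k * (nn G (Q j) x₀).card := by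
        rw [← hq₁]
        exact (Nat.mul_le_mul_left _ h1).trans (h2.trans h3)
      have h5 : k * (4 * (ni G (nn G (Q j) x₀) x).card) ≤ k * (nn G (Q j) x₀).card := by
        have h6 : 2 * (k * (4 * (ni G (nn G (Q j) x₀) x).card)) ≤
            2 * (k * (nn G (Q j) x₀).card) := by
          calc 2 * (k * (4 * (ni G (nn G (Q j) x₀) x).card))
              = 8 * k * (ni G (nn G (Q j) x₀) x).card := by ring
            _ ≤ 2 * k * (nn G (Q j) x₀).card := h4
            _ = 2 * (k * (nn G (Q j) x₀).card) := by ring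
        omega
      have h7 := Nat.le_of_mul_le_mul_left h5 (by omega)
      exact_mod_cast h7
    · rw [hPl l hlj]
      have h1 := (hX₁ x (hXX₁ hx)).2 l hl hlj
      have h2 : (0 : ℝ) ≤ (Q l).card := Nat.cast_nonneg _
      have h3 : ζ * (32 * t) * (Q l).card ≤ 1 * (Q l).card := mul_le_mul_of_nonneg_right hζ1 h2
      nlinarith
  -- the removed set
  obtain ⟨B, hB⟩ : ∃ B : ℕ → Finset V, B = fun l => univ.filter fun y =>
      (P l).card ≤ 2 * (ni G (P l) y).card := ⟨_, rfl⟩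
  obtain ⟨R, hR⟩ : ∃ R : Finset V, R = (range t).biUnion fun l => ni G univ (w l) ∪ B l :=
    ⟨_, rfl⟩
  have hRc : (R.card : ℝ) ≤ 3 * t * K * d := by
    have h1 : (R.card : ℝ) ≤ ∑ l ∈ range t, ((ni G univ (w l) ∪ B l).card : ℝ) := by
      rw [hR]
      exact_mod_cast card_biUnion_le
    have h2 : ∀ l ∈ range t, ((ni G univ (w l) ∪ B l).card : ℝ) ≤ 3 * (K * d) := by
      intro l hl
      have hl' := mem_range.1 hl
      have h3 : ((ni G univ (w l) ∪ B l).card : ℝ) ≤ (ni G univ (w l)).card + (B l).card := by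
        exact_mod_cast card_union_le _ _
      obtain ⟨p, hp⟩ := h.near l hl'
      have h4 := (hdeg (w l) ⟨p, by omega⟩).2
      have h5 : ((B l).card : ℝ) ≤ 2 * (K * d) := by
        apply bad_card G (P l) (B l) (hP0 l hl') (K * d)
        · intro y hy
          rw [hB] at hy
          exact (mem_filter.1 hy).2
        · intro x hx
          apply (hdeg x ?_).2
          refine ⟨p.concat (h.sub l hl' x (hPQ l hl' hx)), ?_⟩
          rw [SimpleGraph.Walk.length_concat]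
          omega
      linarith
    have h3 := sum_le_sum h2
    rw [sum_const, nsmul_eq_mul, card_range] at h3
    calc (R.card : ℝ) ≤ t * (3 * (K * d)) := h1.trans h3
      _ = 3 * t * K * d := by ring
  -- are most neighbourhoods covered by R
  obtain ⟨X₂, hX₂⟩ : ∃ X₂ : Finset V, X₂ = X.filter fun x =>
      ((ni G Rᶜ x).card : ℝ) < ε / 4 * d := ⟨_, rfl⟩
  obtain ⟨X₄, hX₄⟩ : ∃ X₄ : Finset V, X₄ = X.filter fun x =>
      ¬ ((ni G Rᶜ x).card : ℝ) < ε / 4 * d := ⟨_, rfl⟩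
  have hX24 : X₂.card + X₄.card = X.card := by
    rw [hX₂, hX₄]
    exact Finset.card_filter_add_card_filter_not _
  by_cases hcov : X.card ≤ 2 * X₂.card
  · exfalso
    obtain ⟨X₃, hX₃X₂, hX₃c, hX₃⟩ := hC V G R X₂ q₂ hq₂1 hsh
    rw [← hc₂] at hX₃c
    have h1 : (X₂.card : ℝ) ≤ c₂ * X₃.card := by exact_mod_cast hX₃c
    have h2 : (X.card : ℝ) ≤ 2 * X₂.card := by exact_mod_cast hcov
    have h3 : 3 * (α * d) ≤ 16 * c₁ * c₂ * X₃.card := by
      calc 3 * (α * d) ≤ 8 * c₁ * X.card := hXlow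
        _ ≤ 8 * c₁ * (2 * (c₂ * X₃.card)) := by
            apply mul_le_mul_of_nonneg_left _ (by positivity)
            linarith
        _ = 16 * c₁ * c₂ * X₃.card := by ring
    have hX₃ne : X₃.Nonempty := by
      rw [nonempty_iff_ne_empty]
      rintro rfl
      simp at h3
      linarith
    obtain ⟨x₁, hx₁⟩ := hX₃ne
    have hmem : ∀ x ∈ X₃, x ∈ X ∧ ((ni G Rᶜ x).card : ℝ) < ε / 4 * d := by
      intro x hx
      have := hX₃X₂ hx
      rw [hX₂] at this
      exact mem_filter.1 this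
    have h4 : X₃ ⊆ tw G (ε * d) x₁ := by
      intro x hx
      rw [mem_tw]
      have h5 := df_split G R x x₁
      have h6 := hX₃ x hx x₁ hx₁
      have h7 : (q₂ : ℝ) * (df G R x x₁).card ≤ 3 * t * K * d := by
        have : (q₂ : ℝ) * (df G R x x₁).card ≤ R.card := by exact_mod_cast h6
        linarith
      have hq₂0 : (0 : ℝ) < q₂ := by exact_mod_cast hq₂1
      have h8 : ((df G R x x₁).card : ℝ) ≤ ε / 2 * d := by
        have h9 : (q₂ : ℝ) * (df G R x x₁).card ≤ q₂ * (ε / 2 * d) := by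
          have h10 : 6 * t * K * d ≤ ε * q₂ * d := mul_le_mul_of_nonneg_right hq₂r hd0.le
          linarith
        exact le_of_mul_le_mul_left h9 hq₂0
      have h9 : ((df G univ x x₁).card : ℝ) ≤ (df G R x x₁).card +
          ((ni G Rᶜ x).card + (ni G Rᶜ x₁).card) := by exact_mod_cast h5
      have h10 := (hmem x hx).2
      have h11 := (hmem x₁ hx₁).2
      linarith
    have h5 : (X₃.card : ℝ) ≤ (tw G (ε * d) x₁).card := by exact_mod_cast card_le_card h4
    have h6 : ∃ p : G.Walk (w 0) x₁, p.length ≤ t := by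
      obtain ⟨p, hp⟩ := h.near j hjt
      refine ⟨p.concat (h.sub j hjt x₁ (hX₁Q (hXX₁ (hmem x₁ hx₁).1))), ?_⟩
      rw [SimpleGraph.Walk.length_concat]
      omega
    have h7 := htw x₁ h6
    have h8 : 3 * α / (16 * c₁ * c₂) * d * (16 * c₁ * c₂) = 3 * (α * d) := by
      field_simp
    have h9 : (X₃.card : ℝ) < 3 * α / (16 * c₁ * c₂) * d := lt_of_le_of_lt h5 h7
    have h10 : (X₃.card : ℝ) * (16 * c₁ * c₂) < 3 * α / (16 * c₁ * c₂) * d * (16 * c₁ * c₂) :=
      mul_lt_mul_of_pos_right h9 (by positivity)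
    linarith
  · push Not at hcov
    have h1 : X.card < 2 * X₄.card := by omega
    have h2 : (X.card : ℝ) < 2 * X₄.card := by exact_mod_cast h1
    have h3 : (t : ℝ) < X₄.card := by
      have h4 : 16 * c₁ * (t + 1) ≤ d * (3 * α) := by
        rw [div_le_iff₀ (by positivity)] at hd
        exact hd
      have h5 : 3 * (α * d) < 16 * c₁ * X₄.card := by
        calc 3 * (α * d) ≤ 8 * c₁ * X.card := hXlow
          _ < 8 * c₁ * (2 * X₄.card) := mul_lt_mul_of_pos_left h2 (by positivity)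
          _ = 16 * c₁ * X₄.card := by ring
      have h6 : 16 * c₁ * (t + 1) < 16 * c₁ * (X₄.card : ℝ) := by linarith
      have h7 := lt_of_mul_lt_mul_left h6 (by positivity)
      linarith
    have h4 : t < X₄.card := by exact_mod_cast h3
    obtain ⟨x, hx, hxw⟩ : ∃ x ∈ X₄, x ∉ (range t).image w := by
      by_contra hno
      push Not at hno
      have h5 : X₄ ⊆ (range t).image w := hno
      have h6 := (card_le_card h5).trans card_image_le
      rw [card_range] at h6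
      omega
    rw [hX₄, mem_filter] at hx
    obtain ⟨hxX, hxR⟩ := hx
    push Not at hxR
    obtain ⟨Y, hYsub, hYc, hY⟩ := hCC V G q₃ hq₃1 hsh (fun l => nn G (P l) x) (ni G Rᶜ x) t
    rw [← hc₃] at hYc
    have h5 : ((ni G Rᶜ x).card : ℝ) ≤ c₃ * Y.card := by exact_mod_cast hYc
    have h6 : ε / (4 * c₃) * d ≤ Y.card := by
      have h7 : ε / 4 * d ≤ c₃ * Y.card := hxR.trans h5
      have h8 : c₃ * (ε / (4 * c₃) * d) ≤ c₃ * (Y.card : ℝ) := by
        have : c₃ * (ε / (4 * c₃) * d) = ε / 4 * d := by field_simp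
        rw [this]
        exact h7
      exact le_of_mul_le_mul_left h8 hc₃0
    have hYne : Y.Nonempty := by
      rw [nonempty_iff_ne_empty]
      rintro rfl
      have : 0 < ε / (4 * c₃) * d := by positivity
      simp at h6
      linarith
    obtain ⟨y₀, hy₀⟩ := hYne
    have hmemR : ∀ y ∈ Y, y ∉ R ∧ G.Adj x y := by
      intro y hy
      have h7 := hYsub hy
      rw [mem_ni, mem_compl] at h7
      exact h7
    have hnotR : ∀ y ∈ Y, ∀ l < t, y ∉ ni G univ (w l) ∧ y ∉ B l := by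
      intro y hy l hl
      have h7 := (hmemR y hy).1
      rw [hR, mem_biUnion] at h7
      push Not at h7
      have h8 := h7 l (mem_range.2 hl)
      rw [mem_union] at h8
      tauto
    apply finish G k t hk ζ (α * d) (min (α / (8 * k)) (ε / (4 * c₃)) * d) hζ par w Q h hpt x
      (hj ▸ hX₁Q (hXX₁ hxX)) (fun l hl hlx => hxw (mem_image.2 ⟨l, mem_range.2 hl, hlx⟩)) P hPQ
      hPc (hPx x hxX) Y (fun y hy => (hmemR y hy).2) ?_ ?_ q₃ hq₃r hY ?_ ?_ y₀ hy₀
    · intro l hl y hy hadj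
      apply (hnotR y hy l hl).1
      rw [mem_ni]
      exact ⟨mem_univ _, hadj⟩
    · intro l hl y hy
      have h7 := (hnotR y hy l hl).2
      rw [hB] at h7
      simp only [mem_filter, mem_univ, true_and, not_le] at h7
      exact h7.le
    · refine le_trans ?_ h6
      exact mul_le_mul_of_nonneg_right (min_le_right _ _) hd0.le
    · have h7 : min (α / (8 * k)) (ε / (4 * c₃)) * d ≤ α / (8 * k) * d :=
        mul_le_mul_of_nonneg_right (min_le_left _ _) hd0.le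
      have h8 : 8 * k * (α / (8 * k) * d) = α * d := by field_simp
      calc 8 * k * (min (α / (8 * k)) (ε / (4 * c₃)) * d)
          ≤ 8 * k * (α / (8 * k) * d) := mul_le_mul_of_nonneg_left h7 (by positivity)
        _ = α * d := h8

end Pool.Agent.K4H78.TW
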