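import Mathlib

/-!
# Tree-indexed stationary random walks

A symmetric nonnegative weight `c` with positive row sums `D` gives a reversible Markov chain with
transition probabilities `c x y / D x`.  `Ex t f` is the (unnormalised) expectation of `f` over the
random map of the tree with parent function `par` on the vertices `0, ..., t`.
-/

set_option autoImplicit false
set_option linter.unusedSectionVars false

open Finset

namespace Pool.Agent.K4H78.TW.Walk

variable {V : Type} [Fintype V] [DecidableEq V]

/-- row sums -/
noncomputable def D (c : V → V → ℝ) (x : V) : ℝ := ∑ y, c x y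

/-- transition probabilities -/
noncomputable def P (c : V → V → ℝ) (x y : V) : ℝ := c x y / D c x

/-- `r` steps -/
noncomputable def Pr (c : V → V → ℝ) : ℕ → V → V → ℝ
  | 0 => fun x y => if x = y then 1 else 0
  | r + 1 => fun x y => ∑ z, Pr c r x z * P c z y

/-- expectation over the random map of the vertices `0, ..., t` -/
noncomputable def Ex (c : V → V → ℝ) (par : ℕ → ℕ) : ℕ → ((ℕ → V) → ℝ) → ℝ
  | 0 => fun f => ∑ a, D c a * f (fun _ => a)
  | t + 1 => fun f => Ex c par t fun w => ∑ b, P c (w (par (t + 1))) b *
      f (Function.update w (t + 1) b)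

/-- a nonnegative symmetric weight with positive row sums -/
structure Wt (c : V → V → ℝ) : Prop where
  nonneg : ∀ x y, 0 ≤ c x y
  symm : ∀ x y, c x y = c y x
  pos : ∀ x, 0 < D c x

variable {c : V → V → ℝ}

theorem P_nonneg (h : Wt c) (x y : V) : 0 ≤ P c x y := div_nonneg (h.nonneg x y) (h.pos x).le

theorem P_sum (h : Wt c) (x : V) : ∑ y, P c x y = 1 := by
  unfold P
  rw [← sum_div]
  exact div_self (h.pos x).ne'

theorem D_P (h : Wt c) (x y : V) : D c x * P c x y = c x y := by
  unfold P
  rw [mul_div_cancel₀ _ (h.pos x).ne']

theorem rev (h : Wt c) (x y : V) : D c x * P c x y = D c y * P c y x := by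
  rw [D_P h, D_P h, h.symm]

theorem Pr_nonneg (h : Wt c) (r : ℕ) : ∀ x y, 0 ≤ Pr c r x y := by
  induction r with
  | zero => intro x y; unfold Pr; split_ifs <;> norm_num
  | succ r ih =>
    intro x y
    unfold Pr
    exact sum_nonneg fun z _ => mul_nonneg (ih x z) (P_nonneg h z y)

theorem Pr_succ' (r : ℕ) : ∀ x y, Pr c (r + 1) x y = ∑ z, P c x z * Pr c r z y := by
  induction r with
  | zero =>
    intro x y
    unfold Pr
    unfold Pr
    simp
  | succ r ih =>
    intro x y
    calc Pr c (r + 1 + 1) x y = ∑ z, Pr c (r + 1) x z * P c z y := rfl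
      _ = ∑ z, (∑ u, P c x u * Pr c r u z) * P c z y := by
          apply sum_congr rfl
          intro z _
          rw [ih x z]
      _ = ∑ z, ∑ u, P c x u * (Pr c r u z * P c z y) := by
          apply sum_congr rfl
          intro z _
          rw [sum_mul]
          apply sum_congr rfl
          intro u _
          ring
      _ = ∑ u, ∑ z, P c x u * (Pr c r u z * P c z y) := sum_comm
      _ = ∑ u, P c x u * Pr c (r + 1) u y := by
          apply sum_congr rfl
          intro u _
          rw [← mul_sum]
          rfl

theorem Pr_rev (h : Wt c) (r : ℕ) : ∀ x y, D c x * Pr c r x y = D c y * Pr c r y x := by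
  induction r with
  | zero =>
    intro x y
    unfold Pr
    by_cases hxy : x = y
    · rw [hxy]
    · rw [if_neg hxy, if_neg (fun h => hxy h.symm)]
      simp
  | succ r ih =>
    intro x y
    calc D c x * Pr c (r + 1) x y = D c x * ∑ z, Pr c r x z * P c z y := rfl
      _ = ∑ z, (D c x * Pr c r x z) * P c z y := by
          rw [mul_sum]
          apply sum_congr rfl
          intro z _
          ring
      _ = ∑ z, (D c z * P c z y) * Pr c r z x := by
          apply sum_congr rfl
          intro z _
          rw [ih x z]
          ring
      _ = ∑ z, D c y * (P c y z * Pr c r z x) := by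
          apply sum_congr rfl
          intro z _
          rw [rev h z y]
          ring
      _ = D c y * Pr c (r + 1) y x := by
          rw [← mul_sum, ← Pr_succ']

theorem Pr_sum (h : Wt c) (r : ℕ) : ∀ x, ∑ y, Pr c r x y = 1 := by
  induction r with
  | zero => intro x; unfold Pr; simp
  | succ r ih =>
    intro x
    calc ∑ y, Pr c (r + 1) x y = ∑ y, ∑ z, Pr c r x z * P c z y := rfl
      _ = ∑ z, ∑ y, Pr c r x z * P c z y := sum_comm
      _ = ∑ z, Pr c r x z := by
          apply sum_congr rfl
          intro z _
          rw [← mul_sum, P_sum h, mul_one]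
      _ = 1 := ih x

theorem Ex_mono (h : Wt c) (par : ℕ → ℕ) (t : ℕ) : ∀ (f g : (ℕ → V) → ℝ), (∀ w, f w ≤ g w) →
    Ex c par t f ≤ Ex c par t g := by
  induction t with
  | zero =>
    intro f g hfg
    unfold Ex
    exact sum_le_sum fun a _ => mul_le_mul_of_nonneg_left (hfg _) (h.pos a).le
  | succ t ih =>
    intro f g hfg
    unfold Ex
    apply ih
    intro w
    exact sum_le_sum fun b _ => mul_le_mul_of_nonneg_left (hfg _) (P_nonneg h _ _)

theorem Ex_add (par : ℕ → ℕ) (t : ℕ) : ∀ (f g : (ℕ → V) → ℝ),
    Ex c par t (fun w => f w + g w) = Ex c par t f + Ex c par t g := by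
  induction t with
  | zero =>
    intro f g
    unfold Ex
    rw [← sum_add_distrib]
    apply sum_congr rfl
    intro a _
    ring
  | succ t ih =>
    intro f g
    unfold Ex
    rw [← ih]
    congr 1
    funext w
    rw [← sum_add_distrib]
    apply sum_congr rfl
    intro b _
    ring

theorem Ex_zero (par : ℕ → ℕ) (t : ℕ) : Ex c par t (fun _ => 0) = 0 := by
  induction t with
  | zero => unfold Ex; simp
  | succ t ih =>
    unfold Ex
    simp only [mul_zero, sum_const_zero]
    exact ih

theorem Ex_sum {ι : Type} (par : ℕ → ℕ) (t : ℕ) (s : Finset ι) (f : ι → (ℕ → V) → ℝ) :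
    Ex c par t (fun w => ∑ i ∈ s, f i w) = ∑ i ∈ s, Ex c par t (f i) := by
  classical
  induction s using Finset.induction_on with
  | empty =>
    simp only [sum_empty]
    exact Ex_zero par t
  | insert a s ha ih =>
    rw [sum_insert ha, ← ih, ← Ex_add]
    congr 1
    funext w
    rw [sum_insert ha]

theorem Ex_one (h : Wt c) (par : ℕ → ℕ) (t : ℕ) :
    Ex c par t (fun _ => 1) = ∑ a, D c a := by
  induction t with
  | zero => unfold Ex; simp
  | succ t ih =>
    unfold Ex
    rw [← ih]
    congr 1
    funext w
    simp only [mul_one]
    exact P_sum h _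

theorem Ex_succ (par : ℕ → ℕ) (t : ℕ) (f : (ℕ → V) → ℝ) : Ex c par (t + 1) f =
    Ex c par t fun w => ∑ b, P c (w (par (t + 1))) b * f (Function.update w (t + 1) b) := rfl

/-- adjacency in the tree with the parent function `par` -/
def TA (par : ℕ → ℕ) (i j : ℕ) : Prop := (1 ≤ i ∧ par i = j) ∨ (1 ≤ j ∧ par j = i)

theorem TA_symm (par : ℕ → ℕ) (i j : ℕ) (h : TA par i j) : TA par j i := h.symm

theorem joint_swap (h : Wt c) (r : ℕ) (g : V → V → ℝ) :
    ∑ a, ∑ b, D c a * Pr c r a b * g b a = ∑ a, ∑ b, D c a * Pr c r a b * g a b := by
  rw [sum_comm]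
  apply sum_congr rfl
  intro a _
  apply sum_congr rfl
  intro b _
  rw [Pr_rev h]

/-- the joint law of two vertices of the random map (`r` is the distance in the tree) -/
theorem joint (h : Wt c) (par : ℕ → ℕ) (hpar : ∀ i, 1 ≤ i → par i < i) (t : ℕ) :
    ∀ i ≤ t, ∀ j ≤ t, ∃ r : ℕ, r ≤ i + j ∧ (i = j → r = 0) ∧ (i ≠ j → TA par i j → r = 1) ∧
      (i ≠ j → ¬ TA par i j → 2 ≤ r) ∧
      ∀ g : V → V → ℝ, Ex c par t (fun w => g (w i) (w j)) =
        ∑ a, ∑ b, D c a * Pr c r a b * g a b := by
  induction t with
  | zero =>
    intro i hi j hj
    have hi0 : i = 0 := by omega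
    have hj0 : j = 0 := by omega
    subst hi0 hj0
    refine ⟨0, Nat.zero_le _, fun _ => rfl, fun h => absurd rfl h, fun h => absurd rfl h, ?_⟩
    intro g
    unfold Ex Pr
    apply sum_congr rfl
    intro a _
    rw [sum_eq_single a]
    · simp
    · intro b _ hb
      rw [if_neg (fun h => hb h.symm)]
      ring
    · intro ha
      exact absurd (mem_univ a) ha
  | succ t ih =>
    obtain ⟨p, hp⟩ : ∃ p, p = par (t + 1) := ⟨_, rfl⟩
    have hpt : p ≤ t := by
      have := hpar (t + 1) (by omega)
      omega
    have hupd : ∀ (w : ℕ → V) (b : V) (i : ℕ), i ≤ t → Function.update w (t + 1) b i = w i := by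
      intro w b i hi
      exact Function.update_of_ne (by omega) _ _
    have hupd' : ∀ (w : ℕ → V) (b : V), Function.update w (t + 1) b (t + 1) = b := by
      intro w b
      exact Function.update_self _ _ _
    -- one old and one new vertex
    have hnew : ∀ i ≤ t, ∃ r : ℕ, r ≤ i + (t + 1) ∧ (TA par i (t + 1) → r = 1) ∧
        (¬ TA par i (t + 1) → 2 ≤ r) ∧
        ∀ g : V → V → ℝ, Ex c par (t + 1) (fun w => g (w i) (w (t + 1))) =
          ∑ a, ∑ b, D c a * Pr c r a b * g a b := by
      intro i hi
      obtain ⟨r, h0, h1, h2, h3, h4⟩ := ih i hi p hpt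
      have hTA : TA par i (t + 1) ↔ i = p := by
        unfold TA
        constructor
        · rintro (⟨h5, h6⟩ | ⟨-, h6⟩)
          · have := hpar i h5
            omega
          · rw [hp, h6]
        · intro h5
          right
          exact ⟨by omega, by rw [h5, hp]⟩
      refine ⟨r + 1, by omega, ?_, ?_, ?_⟩
      · intro h5
        rw [h1 (hTA.1 h5)]
      · intro h5
        have h6 : i ≠ p := fun h => h5 (hTA.2 h)
        by_cases h7 : TA par i p
        · rw [h2 h6 h7]
        · have := h3 h6 h7
          omega
      · intro g
        unfold Ex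
        have h5 := h4 (fun a b' => ∑ b, P c b' b * g a b)
        rw [← hp]
        have h6 : (fun w : ℕ → V => ∑ b, P c (w p) b * g (Function.update w (t + 1) b i)
            (Function.update w (t + 1) b (t + 1))) =
            fun w => ∑ b, P c (w p) b * g (w i) b := by
          funext w
          apply sum_congr rfl
          intro b _
          rw [hupd w b i hi, hupd']
        rw [h6, h5]
        apply sum_congr rfl
        intro a _
        calc ∑ b', D c a * Pr c r a b' * ∑ b, P c b' b * g a b
            = ∑ b', ∑ b, D c a * (Pr c r a b' * P c b' b) * g a b := by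
              apply sum_congr rfl
              intro b' _
              rw [mul_sum]
              apply sum_congr rfl
              intro b _
              ring
          _ = ∑ b, ∑ b', D c a * (Pr c r a b' * P c b' b) * g a b := sum_comm
          _ = ∑ b, D c a * Pr c (r + 1) a b * g a b := by
              apply sum_congr rfl
              intro b _
              rw [← sum_mul, ← mul_sum]
              rfl
    intro i hi j hj
    rcases Nat.lt_or_ge t i with hit | hit
    · have hi' : i = t + 1 := by omega
      subst hi'
      rcases Nat.lt_or_ge t j with hjt | hjt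
      · have hj' : j = t + 1 := by omega
        subst hj'
        refine ⟨0, Nat.zero_le _, fun _ => rfl, fun h => absurd rfl h, fun h => absurd rfl h, ?_⟩
        intro g
        obtain ⟨r, -, h1, -, -, h4⟩ := ih p hpt p hpt
        have h5 := h4 (fun a _ => ∑ b, P c a b * g b b)
        rw [h1 rfl] at h5
        unfold Ex
        rw [← hp]
        have h6 : (fun w : ℕ → V => ∑ b, P c (w p) b *
            g (Function.update w (t + 1) b (t + 1)) (Function.update w (t + 1) b (t + 1))) =
            fun w => ∑ b, P c (w p) b * g b b := by
          funext w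
          apply sum_congr rfl
          intro b _
          rw [hupd']
        rw [h6, h5]
        unfold Pr
        have h7 : ∀ (a : V) (F : V → ℝ), ∑ b, D c a * (if a = b then (1 : ℝ) else 0) * F b =
            D c a * F a := by
          intro a F
          rw [sum_eq_single a]
          · simp
          · intro b _ hb
            rw [if_neg (fun h => hb h.symm)]
            ring
          · intro ha
            exact absurd (mem_univ a) ha
        have h8 : ∀ a : V, ∑ b : V, D c a * (if a = b then (1 : ℝ) else 0) *
            ∑ b', P c a b' * g b' b' = D c a * ∑ b', P c a b' * g b' b' := by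
          intro a
          exact h7 a (fun _ => ∑ b', P c a b' * g b' b')
        rw [sum_congr rfl (fun a _ => h8 a)]
        rw [sum_congr rfl (fun a _ => h7 a (fun b => g a b))]
        calc ∑ a, D c a * ∑ b', P c a b' * g b' b'
            = ∑ a, ∑ b', D c b' * P c b' a * g b' b' := by
              apply sum_congr rfl
              intro a _
              rw [mul_sum]
              apply sum_congr rfl
              intro b' _
              rw [← rev h a b']
              ring
          _ = ∑ b', ∑ a, D c b' * P c b' a * g b' b' := sum_comm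
          _ = ∑ b', D c b' * g b' b' := by
              apply sum_congr rfl
              intro b' _
              rw [← sum_mul, ← mul_sum, P_sum h, mul_one]
      · obtain ⟨r, h0, h1, h2, h3⟩ := hnew j hjt
        refine ⟨r, by omega, fun h => by omega, fun _ h => h1 (TA_symm _ _ _ h),
          fun _ h => h2 (fun h' => h (TA_symm _ _ _ h')), ?_⟩
        intro g
        rw [h3 (fun a b => g b a)]
        exact joint_swap h r g
    · rcases Nat.lt_or_ge t j with hjt | hjt
      · have hj' : j = t + 1 := by omega
        subst hj'
        obtain ⟨r, h0, h1, h2, h3⟩ := hnew i hit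
        exact ⟨r, by omega, fun h => by omega, fun _ h => h1 h, fun _ h => h2 h, h3⟩
      · obtain ⟨r, h0, h1, h2, h3, h4⟩ := ih i hit j hjt
        refine ⟨r, h0, h1, h2, h3, ?_⟩
        intro g
        rw [← h4 g, Ex_succ]
        congr 1
        funext w
        have h6 : ∀ b, P c (w (par (t + 1))) b * g (Function.update w (t + 1) b i)
            (Function.update w (t + 1) b j) = P c (w (par (t + 1))) b * g (w i) (w j) := by
          intro b
          rw [hupd w b i hit, hupd w b j hjt]
        rw [sum_congr rfl (fun b _ => h6 b), ← sum_mul, P_sum h, one_mul]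

/-- two-sided conditioning: the probability of a relation between the ends of a walk of length at
least `2` is at most the largest density of the relation between two neighbourhoods -/
theorem ends_le (h : Wt c) (g : V → V → ℝ) (ζ : ℝ)
    (hg : ∀ x y, ∑ a, ∑ b, c x a * c y b * g a b ≤ ζ * (D c x * D c y)) (r : ℕ) :
    ∑ a, ∑ b, D c a * Pr c (r + 2) a b * g a b ≤ ζ * ∑ a, D c a := by
  have h1 : ∀ a b, D c a * Pr c (r + 2) a b =
      ∑ x, ∑ y, (D c x * Pr c r x y) * (P c x a * P c y b) := by
    intro a b
    calc D c a * Pr c (r + 2) a b = D c a * ∑ x, P c a x * Pr c (r + 1) x b := by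
          rw [← Pr_succ']
      _ = ∑ x, (D c a * P c a x) * Pr c (r + 1) x b := by
          rw [mul_sum]
          apply sum_congr rfl
          intro x _
          ring
      _ = ∑ x, (D c x * P c x a) * ∑ y, Pr c r x y * P c y b := by
          apply sum_congr rfl
          intro x _
          rw [rev h a x]
          rfl
      _ = ∑ x, ∑ y, (D c x * Pr c r x y) * (P c x a * P c y b) := by
          apply sum_congr rfl
          intro x _
          rw [mul_sum]
          apply sum_congr rfl
          intro y _
          ring
  have h2 : ∀ x y, ∑ a, ∑ b, P c x a * P c y b * g a b ≤ ζ := by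
    intro x y
    have h3 := hg x y
    have h4 : ∑ a, ∑ b, P c x a * P c y b * g a b =
        (∑ a, ∑ b, c x a * c y b * g a b) / (D c x * D c y) := by
      rw [sum_div]
      apply sum_congr rfl
      intro a _
      rw [sum_div]
      apply sum_congr rfl
      intro b _
      unfold P
      rw [div_mul_div_comm, div_mul_eq_mul_div]
    rw [h4, div_le_iff₀ (mul_pos (h.pos x) (h.pos y))]
    exact h3
  calc ∑ a, ∑ b, D c a * Pr c (r + 2) a b * g a b
      = ∑ a, ∑ b, ∑ x, ∑ y, (D c x * Pr c r x y) * (P c x a * P c y b * g a b) := by
        apply sum_congr rfl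
        intro a _
        apply sum_congr rfl
        intro b _
        rw [h1, sum_mul]
        apply sum_congr rfl
        intro x _
        rw [sum_mul]
        apply sum_congr rfl
        intro y _
        ring
    _ = ∑ x, ∑ y, ∑ a, ∑ b, (D c x * Pr c r x y) * (P c x a * P c y b * g a b) := by
        rw [sum_congr rfl (fun a _ => sum_comm)]
        rw [sum_comm]
        apply sum_congr rfl
        intro x _
        rw [sum_congr rfl (fun a _ => sum_comm)]
        rw [sum_comm]
    _ = ∑ x, ∑ y, (D c x * Pr c r x y) * ∑ a, ∑ b, P c x a * P c y b * g a b := by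
        apply sum_congr rfl
        intro x _
        apply sum_congr rfl
        intro y _
        rw [mul_sum]
        apply sum_congr rfl
        intro a _
        rw [mul_sum]
    _ ≤ ∑ x, ∑ y, (D c x * Pr c r x y) * ζ := by
        apply sum_le_sum
        intro x _
        apply sum_le_sum
        intro y _
        exact mul_le_mul_of_nonneg_left (h2 x y) (mul_nonneg (h.pos x).le (Pr_nonneg h r x y))
    _ = ζ * ∑ x, D c x := by
        rw [mul_sum]
        apply sum_congr rfl
        intro x _
        rw [← sum_mul, ← mul_sum, Pr_sum h]
        ring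

end Pool.Agent.K4H78.TW.Walk
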